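import Pool.Agent.Run7.h738.ND.Mean2
import Pool.Agent.W840.CT.Final

/-! # The constants for close pairs -/

set_option autoImplicit false

namespace Run7.h738.ND

open scoped Classical
open Pool.Agent.W840.CT hiding tail_all
open Pool.Agent.TH546.SAW hiding avg avg2 entropy variational transfer window_mean max_mean
  loop_mean far_mean
open Pool.Agent.TH546.SG

theorem cnt_w (w : ℕ) (hw : 1 ≤ w) : Cnt w (Sl w) (3 * G w) (Pf w) := by
  refine ⟨?_, ?_, fun N t r ht => ?_⟩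
  · have h1 : 0 < G w := by unfold G; positivity
    have h2 : 0 < ∑ e ∈ Finset.range w, Kc e :=
      Finset.sum_pos (fun e _ => Kc_pos e) ⟨0, Finset.mem_range.2 hw⟩
    exact Nat.mul_pos h1 h2
  · exact Finset.sum_pos (fun e _ => Nat.mul_pos (by norm_num) (by positivity))
      ⟨0, Finset.mem_range.2 hw⟩
  · calc 4 ^ r * ({ω | SW N ω ∧ Sl w * r + 3 * G w ≤ TW w N t ω} :
          Set (Fin (N + 1) → ℤ × ℤ)).ncard
        ≤ 4 ^ r * (PW w t (N - t) (Sl w * r + 3 * G w)).ncard :=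
          Nat.mul_le_mul_left _ (splitW w N t _ ht)
      _ ≤ Pf w * ((LS t).ncard * (LS (N - t)).ncard) := PW_card w t (N - t) r hw
      _ ≤ Pf w * (cn t * cn (N - t)) :=
          Nat.mul_le_mul_left _ (Nat.mul_le_mul (LS_le _) (LS_le _))

theorem two_w (w : ℕ) : 2 * w + 1 ≤ 3 ^ w := by
  induction w with
  | zero => norm_num
  | succ w ih => rw [pow_succ]; omega

theorem F_pow (w : ℕ) (hw : 1 ≤ w) : 2 * F w + 1 ≤ 41 ^ w := by
  induction w, hw using Nat.le_induction with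
  | base => norm_num [F]
  | succ w hw ih =>
    rw [pow_succ]
    unfold F at *
    nlinarith

theorem G_pow (w : ℕ) (hw : 1 ≤ w) : G w ≤ 15129 ^ w := by
  unfold G
  calc (2 * w + 1) ^ 2 * (2 * F w + 1) ^ 2 ≤ (3 ^ w) ^ 2 * (41 ^ w) ^ 2 :=
        Nat.mul_le_mul (Nat.pow_le_pow_left (two_w w) 2) (Nat.pow_le_pow_left (F_pow w hw) 2)
    _ = 15129 ^ w := by
        rw [← pow_mul, ← pow_mul, mul_comm w 2, pow_mul, pow_mul, ← mul_pow]
        norm_num

theorem Kc_sum (w : ℕ) : ∑ e ∈ Finset.range w, Kc e ≤ 294912 ^ w := by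
  induction w with
  | zero => simp
  | succ w ih =>
    rw [Finset.sum_range_succ, pow_succ]
    unfold Kc at *
    have : 0 < 294912 ^ w := by positivity
    omega

theorem Pf_pow (w : ℕ) : Pf w ≤ 13824 ^ w := by
  unfold Pf
  induction w with
  | zero => simp
  | succ w ih =>
    rw [Finset.sum_range_succ, pow_succ]
    unfold Cc at *
    have : 0 < 13824 ^ w := by positivity
    omega

/-- the exponential rate -/
def K0 : ℕ := 4 * 294912 * 15129 * 13824

theorem MM_le (w : ℕ) (hw : 1 ≤ w) : MM (Sl w) (3 * G w) (Pf w) ≤ (K0 : ℝ) ^ w := by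
  have h1 : (Sl w : ℝ) ≤ 15129 ^ w * 294912 ^ w := by
    have : Sl w ≤ 15129 ^ w * 294912 ^ w := Nat.mul_le_mul (G_pow w hw) (Kc_sum w)
    exact_mod_cast this
  have h2 : ((3 * G w : ℕ) : ℝ) ≤ 3 * (15129 ^ w * 294912 ^ w) := by
    have h3 : 3 * G w ≤ 3 * (15129 ^ w * 294912 ^ w) := by
      refine Nat.mul_le_mul_left _ ((G_pow w hw).trans ?_)
      exact Nat.le_mul_of_pos_right _ (by positivity)
    exact_mod_cast h3
  have hP : (1 : ℝ) ≤ Pf w := by
    have := (cnt_w w hw).2.1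
    exact_mod_cast this
  have h3 : 1 + Real.log (Pf w) ≤ 13824 ^ w := by
    have h4 := Real.log_le_sub_one_of_pos (show (0 : ℝ) < Pf w by linarith)
    have h5 : (Pf w : ℝ) ≤ 13824 ^ w := by exact_mod_cast Pf_pow w
    linarith
  have h0 : 0 ≤ 1 + Real.log (Pf w) := by
    have := Real.log_nonneg hP
    linarith
  unfold MM
  calc ((Sl w : ℝ) + (3 * G w : ℕ)) * (1 + Real.log (Pf w))
      ≤ (4 * (15129 ^ w * 294912 ^ w)) * 13824 ^ w :=
        mul_le_mul (by linarith) h3 h0 (by positivity)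
    _ ≤ (4 ^ w * (15129 ^ w * 294912 ^ w)) * 13824 ^ w := by
        have h5 : (4 : ℝ) ≤ 4 ^ w := le_self_pow₀ (by norm_num) (by omega)
        gcongr
    _ = (K0 : ℝ) ^ w := by
        unfold K0
        rw [← mul_pow, ← mul_pow, ← mul_pow]
        norm_num

/-- **The number of close pairs across a time.** -/
theorem tail_close : ∃ K : ℝ, 1 < K ∧ ∀ w N : ℕ, 1 ≤ w → 2 ≤ N → ∀ x : ℝ, 0 ≤ x →
    (({ω | SW N ω ∧ ∃ t, K ^ w * (Real.log N ^ 2 + x) < TW w N t ω} :
      Set (Fin (N + 1) → ℤ × ℤ)).ncard : ℝ) ≤ Real.exp (-x) * cn N := by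
  obtain ⟨K, hK, h⟩ := tail_w (p := 2) (by norm_num) CU2
  refine ⟨(K + 1) * K0, ?_, fun w N hw hN x hx => ?_⟩
  · have : (1 : ℝ) < K0 := by norm_num [K0]
    nlinarith
  refine le_trans ?_ (h w _ _ _ (cnt_w w hw) N hN x hx)
  rw [Nat.cast_le]
  refine Set.ncard_le_ncard ?_ ((SW_finite N).subset (fun _ h => h.1))
  rintro ω ⟨h1, t, h2⟩
  refine ⟨h1, t, lt_of_le_of_lt ?_ h2⟩
  have hMM := MM_le w hw
  have hMp := MM_pos (b := 3 * G w) (C := Pf w) (cnt_w w hw).1
  have h5 : K ≤ (K + 1) ^ w := by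
    calc K ≤ (K + 1) ^ 1 := by linarith [pow_one (K + 1)]
      _ ≤ (K + 1) ^ w := pow_le_pow_right₀ (by linarith) hw
  refine mul_le_mul_of_nonneg_right ?_ (by positivity)
  rw [mul_pow]
  exact mul_le_mul h5 hMM hMp.le (by positivity)

/-- **The mean number of close pairs with a large lag.** -/
theorem far_close : ∃ K : ℝ, 1 < K ∧ ∀ w m n : ℕ, 1 ≤ w → 2 ≤ m →
    ∑ ω ∈ W n, (FFw w n m ω : ℝ) ≤ cn n * (K ^ w * (n / m) * Real.log m ^ 2) := by
  obtain ⟨K, hK, h⟩ := far_w (p := 2) (by norm_num) CU2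
  refine ⟨(K + 1) * K0, ?_, fun w m n hw hm => ?_⟩
  · have : (1 : ℝ) < K0 := by norm_num [K0]
    nlinarith
  rcases Nat.lt_or_ge n 2 with hn | hn
  · have h0 : ∀ ω : Fin (n + 1) → ℤ × ℤ, FFw w n m ω = 0 := by
      intro ω
      unfold FFw
      rw [Finset.card_eq_zero, Finset.filter_eq_empty_iff]
      rintro q - ⟨h1, -⟩
      have := q.2.2
      omega
    simp only [h0, Nat.cast_zero, Finset.sum_const_zero]
    positivity
  refine (h w _ _ _ (cnt_w w hw) m n hm hn).trans ?_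
  have hMM := MM_le w hw
  have hMp := MM_pos (b := 3 * G w) (C := Pf w) (cnt_w w hw).1
  have h5 : K ≤ (K + 1) ^ w := by
    calc K ≤ (K + 1) ^ 1 := by linarith [pow_one (K + 1)]
      _ ≤ (K + 1) ^ w := pow_le_pow_right₀ (by linarith) hw
  have h6 : K * MM (Sl w) (3 * G w) (Pf w) ≤ ((K + 1) * K0) ^ w := by
    rw [mul_pow]
    exact mul_le_mul h5 hMM hMp.le (by positivity)
  gcongr

end Run7.h738.ND
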