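import Pool.Agent.Run7.h738.ND.Obst
import Pool.Agent.Run7.h738.ND.Inst

/-! # The uniform walk near an obstacle which it avoids -/

set_option autoImplicit false

namespace Run7.h738.ND

open scoped Classical
open Pool.Agent.W840.CT hiding tail_all
open Pool.Agent.TH546.SAW hiding avg avg2 entropy variational transfer window_mean max_mean
  loop_mean far_mean
open Pool.Agent.TH546.SG

/-- every point of `A` has two neighbours in `A` -/
def ThickS (A : Set Pt) : Prop := ∀ p ∈ A, ∃ p1 ∈ A, ∃ p2 ∈ A, p1 ≠ p2 ∧ D p p1 = 1 ∧ D p p2 = 1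

/-- the part of `A` in a large box -/
noncomputable def trunc (A : Set Pt) (R : ℕ) : Finset Pt := (Bx R 0).filter (fun p => p ∈ A)

theorem mem_trunc {A : Set Pt} {R : ℕ} {p : Pt} (hp : p ∈ A) (h : D 0 p ≤ R) : p ∈ trunc A R := by
  unfold trunc
  rw [Finset.mem_filter]
  exact ⟨mem_Bx h, hp⟩

theorem trunc_thick {A : Set Pt} (hA : ThickS A) (R : ℕ) : Thick (trunc A (R + 1)) R := by
  intro p hp h0
  have hpA : p ∈ A := (Finset.mem_filter.1 hp).2
  obtain ⟨p1, h1, p2, h2, h12, d1, d2⟩ := hA p hpA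
  have t1 := D_tri 0 p p1
  have t2 := D_tri 0 p p2
  exact ⟨hp, p1, mem_trunc h1 (by omega), p2, mem_trunc h2 (by omega), h12,
    adj_iff_D.2 d1, adj_iff_D.2 d2⟩

/-- number of times at which the walk is at distance at most `w` from `A` -/
noncomputable def NS (w n : ℕ) (A : Set Pt) (ω : Fin (n + 1) → ℤ × ℤ) : ℕ :=
  ((Finset.univ : Finset (Fin (n + 1))).filter (fun i => ∃ a ∈ A, D (ω i) a ≤ w)).card

theorem D_SW {n : ℕ} {ω : Fin (n + 1) → ℤ × ℤ} (h : SW n ω) (i : Fin (n + 1)) :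
    D 0 (ω i) ≤ n := by
  refine D_LS (li_mem h) ?_
  unfold li
  rw [List.mem_map]
  exact ⟨i.1, List.mem_range.2 i.2, ex_val ω i⟩

theorem NS_le {w n : ℕ} {A : Set Pt} {ω : Fin (n + 1) → ℤ × ℤ} (h : SW n ω) {R : ℕ}
    (hR : n + w ≤ R) : NS w n A ω ≤ NW w (trunc A R) (li ω).toFinset := by
  unfold NS NW
  refine Finset.card_le_card_of_injOn (fun i => ω i) ?_ ?_
  · intro i hi
    simp only [Finset.coe_filter, Finset.mem_univ, true_and, Set.mem_ofPred_eq] at hi
    obtain ⟨a, ha, hd⟩ := hi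
    simp only [Finset.coe_filter, List.mem_toFinset, Set.mem_ofPred_eq]
    refine ⟨?_, a, mem_trunc ha ?_, hd⟩
    · unfold li
      rw [List.mem_map]
      exact ⟨i.1, List.mem_range.2 i.2, ex_val ω i⟩
    · have h1 := D_SW h i
      have h2 := D_tri 0 (ω i) a
      omega
  · intro i _ j _ hij
    exact h.2.2 hij

theorem li_avoid {n : ℕ} {A : Set Pt} {ω : Fin (n + 1) → ℤ × ℤ} (h : SW n ω)
    (hA : ∀ i, ω i ∉ A) (R : ℕ) : li ω ∈ Av (trunc A R) n := by
  rw [mem_Av]
  refine ⟨li_mem h, ?_⟩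
  intro v hv hvA
  exfalso
  unfold li at hv
  rw [List.mem_map] at hv
  obtain ⟨i, hi, rfl⟩ := hv
  rw [List.mem_range] at hi
  have h1 : ex ω i ∈ A := (Finset.mem_filter.1 hvA).2
  have h2 := ex_val ω ⟨i, hi⟩
  rw [h2] at h1
  exact hA _ h1

/-- **Few walks avoid an obstacle and are often close to it.** -/
theorem NS_tail (w n r : ℕ) (hw : 1 ≤ w) {A : Set Pt} (hA : ThickS A) :
    4 ^ r * ((W n).filter (fun ω => (∀ i, ω i ∉ A) ∧
      G2 w * (∑ e ∈ Finset.range w, Kc e) * r + 2 * G2 w ≤ NS w n A ω)).card ≤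
      Pf w * cn n := by
  have hF : w ≤ F w := by
    unfold F
    nlinarith
  have h1 := NW_tail w n r hw (trunc_thick hA (n + F w))
  refine le_trans (Nat.mul_le_mul_left _ ?_) (h1.trans (Nat.mul_le_mul_left _ (LS_le n)))
  refine Finset.card_le_card_of_injOn li ?_ ?_
  · intro ω hω
    rw [Finset.mem_coe, Finset.mem_filter, mem_W] at hω
    obtain ⟨h2, h3, h4⟩ := hω
    rw [Finset.mem_coe, Finset.mem_filter]
    exact ⟨li_avoid h2 h3 _, h4.trans (NS_le h2 (by omega))⟩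
  · intro ω _ ω' _ h
    exact li_inj h

theorem G2_pow (w : ℕ) (hw : 1 ≤ w) : G2 w ≤ 15129 ^ w := by
  unfold G2
  calc (2 * F w + 1) ^ 2 ≤ (41 ^ w) ^ 2 := Nat.pow_le_pow_left (F_pow w hw) 2
    _ = 1681 ^ w := by
        rw [← pow_mul, mul_comm w 2, pow_mul]
        norm_num
    _ ≤ _ := Nat.pow_le_pow_left (by norm_num) w

/-- **The walk near an avoided obstacle.** -/
theorem avoid_tail : ∃ K : ℝ, 1 < K ∧ ∀ (A : Set Pt), ThickS A → ∀ w n : ℕ, 1 ≤ w →
    ∀ x : ℝ, 0 ≤ x →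
    (((W n).filter (fun ω => (∀ i, ω i ∉ A) ∧
      K ^ w * (1 + Real.log (cn n / ((W n).filter (fun ω => ∀ i, ω i ∉ A)).card) + x) <
        NS w n A ω)).card : ℝ) ≤
      Real.exp (-x) * ((W n).filter (fun ω => ∀ i, ω i ∉ A)).card := by
  refine ⟨3 * K0, by norm_num [K0], fun A hA w n hw x hx => ?_⟩
  set q : ℕ := ((W n).filter (fun ω => ∀ i, ω i ∉ A)).card with hq
  rcases Nat.eq_zero_or_pos q with h0 | hq0
  · have h1 : (((W n).filter (fun ω => (∀ i, ω i ∉ A) ∧
        (3 * (K0 : ℝ)) ^ w * (1 + Real.log (cn n / (q : ℕ)) + x) < NS w n A ω)).card : ℝ) ≤ q := by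
      rw [Nat.cast_le, hq]
      refine Finset.card_le_card ?_
      intro ω hω
      rw [Finset.mem_filter] at hω ⊢
      exact ⟨hω.1, hω.2.1⟩
    rw [h0] at h1 ⊢
    simpa using h1
  have hq' : (0 : ℝ) < q := by exact_mod_cast hq0
  have hqc : (q : ℝ) ≤ cn n := by
    rw [← card_W, hq]
    exact_mod_cast Finset.card_filter_le _ _
  have hcn : (0 : ℝ) < cn n := lt_of_lt_of_le hq' hqc
  have hP1 : 1 ≤ Pf w := (cnt_w w hw).2.1
  have hP : (1 : ℝ) ≤ Pf w := by exact_mod_cast hP1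
  have hcq : 1 ≤ (cn n : ℝ) / q := by
    rw [le_div_iff₀ hq', one_mul]
    exact hqc
  have hl1 : 0 ≤ Real.log (Pf w) := Real.log_nonneg hP
  have hl2 : 0 ≤ Real.log ((cn n : ℝ) / q) := Real.log_nonneg hcq
  set l := Real.log ((cn n : ℝ) / q) with hl
  set S := ∑ e ∈ Finset.range w, Kc e with hS
  set r := ⌈x + (Real.log (Pf w) + l)⌉₊ with hr
  have hr1 : (r : ℝ) ≤ x + (Real.log (Pf w) + l) + 1 :=
    (Nat.ceil_lt_add_one (by positivity)).le
  -- the threshold
  have hthr : ((G2 w * S * r + 2 * G2 w : ℕ) : ℝ) ≤ (3 * (K0 : ℝ)) ^ w * (1 + l + x) := by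
    have h1 : (G2 w : ℝ) ≤ 15129 ^ w := by exact_mod_cast G2_pow w hw
    have h2 : (S : ℝ) ≤ 294912 ^ w := by exact_mod_cast Kc_sum w
    have h3 : 1 + Real.log (Pf w) ≤ 13824 ^ w := by
      have h4 := Real.log_le_sub_one_of_pos (show (0 : ℝ) < Pf w by linarith)
      have h5 : (Pf w : ℝ) ≤ 13824 ^ w := by exact_mod_cast Pf_pow w
      linarith
    have hS1 : (1 : ℝ) ≤ 294912 ^ w := one_le_pow₀ (by norm_num)
    have hG0 : (0 : ℝ) ≤ G2 w := Nat.cast_nonneg _
    have hS0 : (0 : ℝ) ≤ S := Nat.cast_nonneg _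
    have h4 : (r : ℝ) + 2 ≤ 3 * ((1 + Real.log (Pf w)) * (1 + l + x)) := by
      nlinarith [mul_nonneg hl1 hl2, mul_nonneg hl1 hx]
    have h5 : (S : ℝ) * r + 2 ≤ 294912 ^ w * (r + 2) := by
      have h6 : (S : ℝ) * r ≤ 294912 ^ w * r :=
        mul_le_mul_of_nonneg_right h2 (Nat.cast_nonneg _)
      nlinarith
    push_cast
    calc (G2 w : ℝ) * S * r + 2 * G2 w = G2 w * (S * r + 2) := by ring
      _ ≤ 15129 ^ w * (294912 ^ w * (3 * (13824 ^ w * (1 + l + x)))) := by
          refine mul_le_mul h1 (h5.trans ?_) (by positivity) (by positivity)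
          refine mul_le_mul_of_nonneg_left (h4.trans ?_) (by positivity)
          refine mul_le_mul_of_nonneg_left ?_ (by norm_num)
          exact mul_le_mul_of_nonneg_right h3 (by positivity)
      _ = (3 * (15129 ^ w * 294912 ^ w * 13824 ^ w)) * (1 + l + x) := by ring
      _ ≤ (3 * (K0 : ℝ)) ^ w * (1 + l + x) := by
          refine mul_le_mul_of_nonneg_right ?_ (by positivity)
          rw [← mul_pow, ← mul_pow, mul_pow 3]
          have h7 : (3 : ℝ) ≤ 3 ^ w := le_self_pow₀ (by norm_num) (by omega)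
          refine mul_le_mul h7 ?_ (by positivity) (by positivity)
          refine pow_le_pow_left₀ (by norm_num) ?_ w
          norm_num [K0]
  have h1 := NS_tail w n r hw hA
  have h2 : ((W n).filter (fun ω => (∀ i, ω i ∉ A) ∧
      (3 * (K0 : ℝ)) ^ w * (1 + l + x) < NS w n A ω)).card ≤
      ((W n).filter (fun ω => (∀ i, ω i ∉ A) ∧
        G2 w * S * r + 2 * G2 w ≤ NS w n A ω)).card := by
    refine Finset.card_le_card ?_
    intro ω hω
    rw [Finset.mem_filter] at hω ⊢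
    refine ⟨hω.1, hω.2.1, ?_⟩
    have := hthr.trans hω.2.2.le
    exact_mod_cast this
  have h3 : (4 : ℝ) ^ r * (((W n).filter (fun ω => (∀ i, ω i ∉ A) ∧
      (3 * (K0 : ℝ)) ^ w * (1 + l + x) < NS w n A ω)).card : ℝ) ≤ Pf w * cn n := by
    exact_mod_cast (Nat.mul_le_mul_left _ h2).trans h1
  have h4 : Real.exp x * (Pf w * (cn n / q)) ≤ 4 ^ r := by
    calc Real.exp x * (Pf w * (cn n / q)) =
          Real.exp x * (Real.exp (Real.log (Pf w)) * Real.exp l) := by
          rw [hl, Real.exp_log (by linarith), Real.exp_log (by linarith)]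
      _ = Real.exp (x + (Real.log (Pf w) + l)) := by rw [Real.exp_add, Real.exp_add]
      _ ≤ Real.exp r := Real.exp_le_exp.2 (Nat.le_ceil _)
      _ = Real.exp 1 ^ r := by rw [← Real.exp_nat_mul, mul_one]
      _ ≤ 4 ^ r := by
          refine pow_le_pow_left₀ (Real.exp_pos _).le ?_ r
          have := Real.exp_one_lt_d9
          linarith
  set X : ℝ := (((W n).filter (fun ω => (∀ i, ω i ∉ A) ∧
      (3 * (K0 : ℝ)) ^ w * (1 + l + x) < NS w n A ω)).card : ℝ) with hX
  have hX0 : 0 ≤ X := Nat.cast_nonneg _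
  have h5 : Real.exp x * (Pf w * (cn n / q)) * X ≤ Pf w * cn n :=
    (mul_le_mul_of_nonneg_right h4 hX0).trans h3
  have h6 : (0 : ℝ) < Pf w * cn n := by positivity
  have h7 : Real.exp x * X ≤ q := by
    have h8 : Real.exp x * (Pf w * (cn n / q)) * X = (Pf w * cn n) * (Real.exp x * X / q) := by
      field_simp
    rw [h8] at h5
    have h9 : Real.exp x * X / q ≤ 1 := by
      by_contra hcon
      push Not at hcon
      have := mul_lt_mul_of_pos_left hcon h6
      linarith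
    rwa [div_le_one hq'] at h9
  rw [Real.exp_neg, ← div_eq_inv_mul, le_div_iff₀ (Real.exp_pos x), mul_comm]
  exact h7

end Run7.h738.ND
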