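import Pool.Agent.W840.CT.Loc

/-! # Unit surgeries which bring a walk closer to an obstacle -/

set_option autoImplicit false

namespace Run7.h738.ND

open Pool.Agent.W840.CT

/-- the `ℓ¹` distance -/
def D (p q : Pt) : ℕ := (q.1 - p.1).natAbs + (q.2 - p.2).natAbs

theorem adj_iff_D {p q : Pt} : adj p q ↔ D p q = 1 := by
  unfold adj D
  rw [Int.abs_eq_natAbs, Int.abs_eq_natAbs]
  omega

theorem D_comm (p q : Pt) : D p q = D q p := by
  unfold D
  omega

theorem D_self (p : Pt) : D p p = 0 := by
  unfold D
  omega

theorem D_tri (p q r : Pt) : D p r ≤ D p q + D q r := by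
  unfold D
  omega

theorem D_eq_zero {p q : Pt} (h : D p q = 0) : p = q := by
  unfold D at h
  refine Prod.ext ?_ ?_ <;> omega

/-- quarter turn -/
def rot (f : Pt) : Pt := (-f.2, f.1)

theorem exists_dir {u p : Pt} {e : ℕ} (h : D u p = e + 1) : ∃ f, Un f ∧ D (u + f) p = e := by
  unfold D at h
  rcases lt_trichotomy u.1 p.1 with h1 | h1 | h1
  · refine ⟨(1, 0), by simp [Un], ?_⟩
    unfold D
    simp only [Prod.fst_add, Prod.snd_add]
    omega
  · rcases lt_trichotomy u.2 p.2 with h2 | h2 | h2
    · refine ⟨(0, 1), by simp [Un], ?_⟩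
      unfold D
      simp only [Prod.fst_add, Prod.snd_add]
      omega
    · omega
    · refine ⟨(0, -1), by simp [Un], ?_⟩
      unfold D
      simp only [Prod.fst_add, Prod.snd_add]
      omega
  · refine ⟨(-1, 0), by simp [Un], ?_⟩
    unfold D
    simp only [Prod.fst_add, Prod.snd_add]
    omega

theorem rot_P4 {f g : Pt} (hf : Un f) (hg : g = rot f ∨ g = -rot f) :
    Un g ∧ P4 f g ∧ P4 g f := by
  rcases hf with h | h | h | h <;> subst h <;> rcases hg with h | h <;> subst h <;>
    refine ⟨by simp [Un, rot], fun δ hδ => ?_, fun δ hδ => ?_⟩ <;>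
    simp [Un, rot] at hδ ⊢ <;> tauto

/-- the geometry of the difficult case -/
theorem fact1 {u p f g : Pt} {e : ℕ} (he : 1 ≤ e) (hf : Un f) (hg : g = rot f ∨ g = -rot f)
    (hd : D u p = e + 1) (hs : D (u + f) p = e)
    (h1 : e + 1 ≤ D p (u + f + g)) (h2 : e + 1 ≤ D p (u + f + g + f)) :
    D (u - g) p = e ∧ (e = 1 → p = u + f - g) ∧ (2 ≤ e → D p (u - g - f - g) ≤ e) := by
  obtain ⟨a, b⟩ := u
  obtain ⟨c, d⟩ := p
  unfold D at *
  rcases hf with h | h | h | h <;> subst h <;> rcases hg with h | h <;> subst h <;>
    simp only [rot, Prod.mk_add_mk, Prod.mk_sub_mk, Prod.neg_mk, Prod.mk.injEq] at * <;>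
    omega

/-- inner points of the walk -/
def Inn (B : List Pt) (v : Pt) : Prop := ∃ z w, Con B z v ∧ Con B v w

theorem P4_neg {f g : Pt} (h : P4 f g) : P4 (-f) g := by
  intro δ hδ
  rcases h δ hδ with h | h | h | h
  · exact Or.inr (Or.inl (by rw [h, neg_neg]))
  · exact Or.inl h
  · exact Or.inr (Or.inr (Or.inl h))
  · exact Or.inr (Or.inr (Or.inr h))

theorem sideE {B : List Pt} (hB : B.IsChain adj) (hn : B.Nodup) {v f g : Pt} (h4 : P4 f g)
    (hi : Inn B v) (hx : v + f ∉ B) : Nb B v (v + g) ∨ Nb B v (v - g) := by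
  obtain ⟨z, w, hz, hw⟩ := hi
  refine side (s := -f) hB hn (P4_neg h4) hz hw ?_ ?_
  · rintro h
    rw [sub_neg_eq_add] at h
    exact hx (h ▸ hz.mem_left)
  · rintro h
    rw [sub_neg_eq_add] at h
    exact hx (h ▸ hw.mem_right)

theorem unit_bd {f : Pt} (h : Un f) : |f.1| ≤ 1 ∧ |f.2| ≤ 1 := by
  rcases h with h | h | h | h <;> subst h <;> norm_num

/-- **Local surgery.** A walk `B` at locally minimal distance `e + 1` from the obstacle `A` can be
changed next to its point `u` by a unit surgery which brings it to the distance `e`. -/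
theorem step {B : List Pt} (hB : B.IsChain adj) (hn : B.Nodup) {A : Set Pt} {e : ℕ} (he : 1 ≤ e)
    {u p : Pt} (hu : u ∈ B) (hp : p ∈ A) (hd : D u p = e + 1)
    {p1 p2 : Pt} (h1 : p1 ∈ A) (h2 : p2 ∈ A) (h12 : p1 ≠ p2) (a1 : adj p p1) (a2 : adj p p2)
    (hmin : ∀ a ∈ A, D u a ≤ e + 3 → ∀ b ∈ B, e + 1 ≤ D a b)
    (hint : ∀ v ∈ B, D u v ≤ 2 → Inn B v) :
    ∃ s, adj u s ∧ D s p = e ∧ ∃ κ x L, Surg B s κ x L := by
  obtain ⟨f, hf, hs⟩ := exists_dir hd
  -- points at distance at most `e` from `p` are not in `B`
  have hpB : ∀ q, D p q ≤ e → q ∉ B := by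
    intro q hq hqB
    have := hmin p hp (by omega) q hqB
    omega
  -- points next to `B` close to `u` are not in `A`
  have hA : ∀ q b, b ∈ B → D q b = 1 → D u q ≤ 4 → q ∉ A := by
    intro q b hb h1 h2 h3
    have := hmin q h3 (by omega) b hb
    omega
  have hsB : u + f ∉ B := hpB _ (by rw [D_comm]; omega)
  obtain ⟨g, hg, hnb⟩ : ∃ g, (g = rot f ∨ g = -rot f) ∧ Nb B u (u + g) := by
    have h4 := (rot_P4 hf (Or.inl rfl)).2.1
    rcases sideE hB hn h4 (hint u hu (by rw [D_self]; omega)) hsB with h | h
    · exact ⟨_, Or.inl rfl, h⟩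
    · exact ⟨_, Or.inr rfl, by rw [← sub_eq_add_neg]; exact h⟩
  obtain ⟨hug, h4, h4'⟩ := rot_P4 hf hg
  have dfg : D u (u + f + g) = 2 ∧ D u (u - g - f) = 2 := by
    unfold D
    rcases hf with h | h | h | h <;> subst h <;> rcases hg with h | h <;> subst h <;>
      simp [rot]
  by_cases hq : u + f + g ∈ B
  swap
  · -- detour through `u + f` and `u + f + g`
    obtain ⟨x, L, hL⟩ := surg_det hB hn hnb hsB hq hug (adj_comm (adj_add hf)) (by
      rw [show u + f + g = u + g + f by abel]
      exact adj_comm (adj_add hf))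
    exact ⟨u + f, adj_add hf, hs, _, x, L, hL⟩
  by_cases hfl : Nb B (u + g) (u + f + g)
  · -- flip
    obtain ⟨L, hL⟩ := surg_flip (p := u + f) hn hnb hfl (by
      intro h
      have : f + g = 0 := by
        have := congrArg (fun t => t - u) h
        simp only [sub_self] at this
        rw [this]; abel
      rcases hf with h | h | h | h <;> subst h <;> rcases hg with h | h <;> subst h <;>
        simp [rot] at this) hsB (adj_comm (adj_add hf)) (adj_add hug) (by
      have e : (u + g).1 - (u + f).1 = g.1 - f.1 := by simp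
      rw [e]
      rcases hf with h | h | h | h <;> subst h <;> rcases hg with h | h <;> subst h <;>
        simp [rot]) (by
      have e : (u + g).2 - (u + f).2 = g.2 - f.2 := by simp
      rw [e]
      rcases hf with h | h | h | h <;> subst h <;> rcases hg with h | h <;> subst h <;>
        simp [rot])
    exact ⟨u + f, adj_add hf, hs, _, _, L, hL⟩
  -- the point `u + f + g` of `B` is joined with `u + f + g + f`
  have e1 : u + f + g + -g = u + f := by abel
  have hnb2 : Nb B (u + f + g) (u + f + g + f) := by
    rcases sideE hB hn (P4_neg h4') (hint _ hq (by omega)) (by rw [e1]; exact hsB) with h | h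
    · exact h
    · exfalso
      apply hfl
      rw [show u + f + g - f = u + g by abel] at h
      exact h.symm
  have hF := fact1 he hf hg hd hs (hmin p hp (by omega) _ hq)
    (hmin p hp (by omega) _ hnb2.mem_right)
  obtain ⟨F1, F2, F3⟩ := hF
  rcases Nat.lt_or_ge e 2 with he2 | he2
  · -- `e = 1`
    have he1 : e = 1 := by omega
    have hpe := F2 he1
    have hsA : u + f ∉ A := hA _ u hu (by rw [D_comm, ← adj_iff_D]; exact adj_add hf) (by
      have := adj_iff_D.1 (adj_add (p := u) hf); omega)
    have hgA : u - g ∉ A := by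
      have h : adj u (u - g) := by
        rw [sub_eq_add_neg]; exact adj_add (un_neg hug)
      exact hA _ u hu (by rw [D_comm, ← adj_iff_D]; exact h) (by
        have := adj_iff_D.1 h; omega)
    have hpfA : p + f ∈ A := by
      have key : ∀ q ∈ A, adj p q → q = p + f ∨ q = p - g := by
        intro q hqA hq
        have e2 : q = p + (q - p) := by abel
        rcases h4 _ (adj_iff.1 hq) with h | h | h | h
        · left; rw [e2, h]
        · exfalso
          apply hgA
          have : q = u - g := by
            rw [e2, h, hpe]; abel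
          rw [← this]; exact hqA
        · exfalso
          apply hsA
          have : q = u + f := by
            rw [e2, h, hpe]; abel
          rw [← this]; exact hqA
        · right; rw [e2, h, sub_eq_add_neg]
      rcases key p1 h1 a1 with h | h
      · rw [← h]; exact h1
      · rcases key p2 h2 a2 with h' | h'
        · rw [← h']; exact h2
        · exact absurd (h.trans h'.symm) h12
    have hsf : u + f + f ∉ B := by
      intro h
      have := hmin (p + f) hpfA (by
        rw [hpe]
        unfold D
        rcases hf with h | h | h | h <;> subst h <;> rcases hg with h | h <;> subst h <;>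
          simp [rot] <;> omega) _ h
      rw [hpe] at this
      have h3 : D (u + f - g + f) (u + f + f) = 1 := by
        rw [← adj_iff_D, adj_iff, show u + f + f - (u + f - g + f) = g by abel]
        exact hug
      omega
    obtain ⟨x, L, hL⟩ := surg_det hB hn hnb2 hsB hsf hf (adj_add hug) (by
      rw [show u + f + g + f = u + f + f + g by abel]
      exact adj_add hug)
    exact ⟨u + f, adj_add hf, hs, _, x, L, hL⟩
  -- `e ≥ 2`: use `u - g`
  have hgB : u - g ∉ B := hpB _ (by rw [D_comm]; omega)
  have hag : adj u (u - g) := by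
    rw [sub_eq_add_neg]; exact adj_add (un_neg hug)
  have hnb3 : Nb B u (u - f) := by
    rcases sideE hB hn (P4_neg h4') (hint u hu (by rw [D_self]; omega))
      (by rw [← sub_eq_add_neg]; exact hgB) with h | h
    · exact absurd h.mem_right hsB
    · exact h
  by_cases hq2 : u - g + -f ∈ B
  swap
  · obtain ⟨x, L, hL⟩ := surg_det hB hn hnb3 hgB hq2 (un_neg hf) (adj_comm hag) (by
      rw [show u - f = u - g + -f + g by abel]
      exact adj_add hug)
    exact ⟨u - g, hag, F1, _, x, L, hL⟩
  rw [← sub_eq_add_neg] at hq2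
  by_cases hfl2 : Nb B (u - f) (u - g - f)
  · obtain ⟨L, hL⟩ := surg_flip (p := u - g) hn hnb3 hfl2 (by
      intro h
      have : f + g = 0 := by
        have := congrArg (fun t => u - t) h
        simp only [sub_self] at this
        rw [this]; abel
      rcases hf with h | h | h | h <;> subst h <;> rcases hg with h | h <;> subst h <;>
        simp [rot] at this) hgB (adj_comm hag) (by
      rw [sub_eq_add_neg (u - g)]
      exact adj_add (un_neg hf)) (by
      have e : (u - f).1 - (u - g).1 = g.1 - f.1 := by simp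
      rw [e]
      rcases hf with h | h | h | h <;> subst h <;> rcases hg with h | h <;> subst h <;>
        simp [rot]) (by
      have e : (u - f).2 - (u - g).2 = g.2 - f.2 := by simp
      rw [e]
      rcases hf with h | h | h | h <;> subst h <;> rcases hg with h | h <;> subst h <;>
        simp [rot])
    exact ⟨u - g, hag, F1, _, _, L, hL⟩
  exfalso
  have e3 : u - g - f + f = u - g := by abel
  rcases sideE hB hn h4 (hint _ hq2 (by omega)) (by rw [e3]; exact hgB) with h | h
  · apply hfl2
    rw [show u - g - f + g = u - f by abel] at h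
    exact h.symm
  · exact hpB _ (F3 he2) h.mem_right

end Run7.h738.ND
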