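import Pool.Agent.Run7.h738.ND.Next

/-! # Few walks have many places for surgeries, at every distance -/

set_option autoImplicit false

namespace Run7.h738.ND

open scoped Classical
open Pool.Agent.W840.CT

/-- the walks of `n` steps which avoid `A` -/
noncomputable def Av (A : Finset Pt) (n : ℕ) : Finset (List Pt) :=
  ((LS_finite n).subset (fun B (hB : B ∈ ({B | B ∈ LS n ∧ ∀ v ∈ B, v ∈ A → v = 0} :
    Set (List Pt))) => hB.1)).toFinset

theorem mem_Av {A : Finset Pt} {n : ℕ} {B : List Pt} :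
    B ∈ Av A n ↔ B ∈ LS n ∧ ∀ v ∈ B, v ∈ A → v = 0 := by
  unfold Av
  rw [Set.Finite.mem_toFinset]
  rfl

/-- the neighbours of the points of a set -/
noncomputable def NN (S : Finset Pt) : Finset Pt := S.biUnion (fun s => dirs.image (fun f => s + f))

theorem NN_card (S : Finset Pt) : (NN S).card ≤ 4 * S.card := by
  unfold NN
  refine Finset.card_biUnion_le.trans ?_
  calc ∑ s ∈ S, (dirs.image (fun f => s + f)).card ≤ ∑ _s ∈ S, 4 :=
        Finset.sum_le_sum (fun s _ => Finset.card_image_le)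
    _ = 4 * S.card := by rw [Finset.sum_const, smul_eq_mul, mul_comm]

theorem mem_NN {S : Finset Pt} {s s' : Pt} (h : s' ∈ S) (h' : adj s s') : s ∈ NN S := by
  unfold NN
  rw [Finset.mem_biUnion]
  refine ⟨s', h, ?_⟩
  rw [Finset.mem_image]
  refine ⟨s - s', ?_, by abel⟩
  rw [mem_dirs, ← adj_iff]
  exact adj_comm h'

/-- **The weighted inequality between two levels.** -/
theorem weigh (A : Finset Pt) (e : ℕ) (κ : Bool × Pt) (c : Pt) (r n : ℕ) :
    ∑ B ∈ Av A n, (QE A e κ c B).card.choose r ≤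
      ∑ B ∈ Av A (n + (if κ.1 = true then 2 else 0) * r), (4 * (EE A B e).card).choose r := by
  set n' := n + (if κ.1 = true then 2 else 0) * r with hn'
  have h1 : ((Av A n).sigma (fun B => (QE A e κ c B).powersetCard r)).card =
      ∑ B ∈ Av A n, (QE A e κ c B).card.choose r := by
    rw [Finset.card_sigma]
    exact Finset.sum_congr rfl (fun B _ => Finset.card_powersetCard _ _)
  have h2 : ((Av A n').sigma (fun B => (NN (EE A B e)).powersetCard r)).card ≤
      ∑ B ∈ Av A n', (4 * (EE A B e).card).choose r := by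
    rw [Finset.card_sigma]
    refine Finset.sum_le_sum (fun B _ => ?_)
    rw [Finset.card_powersetCard]
    exact Nat.choose_le_choose r (NN_card _)
  rw [← h1]
  refine le_trans ?_ h2
  refine Finset.card_le_card_of_injOn
    (fun q => (⟨nw q.1 κ q.2, q.2⟩ : Σ _ : List Pt, Finset Pt)) ?_ ?_
  · rintro ⟨B, T⟩ hq
    rw [Finset.mem_coe, Finset.mem_sigma, mem_Av, Finset.mem_powersetCard] at hq
    obtain ⟨⟨hB, hav⟩, hT, hc⟩ := hq
    simp only at hB hav hT hc
    obtain ⟨g1, g2, g3, -⟩ := next hB hav hT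
    rw [Finset.mem_coe, Finset.mem_sigma, mem_Av, Finset.mem_powersetCard]
    refine ⟨⟨?_, g2⟩, ?_, hc⟩
    · rw [hc] at g1
      exact g1
    · intro s hs
      obtain ⟨s', hs', ha⟩ := g3 s hs
      exact mem_NN hs' ha
  · rintro ⟨B, T⟩ hq ⟨B', T'⟩ hq' h
    rw [Finset.mem_coe, Finset.mem_sigma, mem_Av, Finset.mem_powersetCard] at hq hq'
    obtain ⟨⟨hB, hav⟩, hT, hc⟩ := hq
    obtain ⟨⟨hB', hav'⟩, hT', hc'⟩ := hq'
    simp only [Sigma.mk.injEq, heq_eq_eq] at h hB hav hT hB' hav' hT'
    obtain ⟨e1, e2⟩ := h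
    subst e2
    have d1 := (next hB hav hT).2.2.2
    have d2 := (next hB' hav' hT').2.2.2
    rw [e1, d2] at d1
    rw [d1]

theorem choose_le_real (m r j : ℕ) (hm : 1 ≤ m) : ((m * j).choose r : ℝ) ≤ m ^ r * 3 ^ j := by
  have hm' : (0 : ℝ) < m := by exact_mod_cast hm
  have h1 : ((m * j).choose r : ℝ) * (1 / m) ^ r ≤ (1 + 1 / (m : ℝ)) ^ (m * j) := by
    rcases Nat.lt_or_ge (m * j) r with h | h
    · rw [Nat.choose_eq_zero_of_lt h]
      simp only [Nat.cast_zero, zero_mul]
      positivity
    · rw [add_comm (1 : ℝ), add_pow]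
      have h2 := Finset.single_le_sum (s := Finset.range (m * j + 1))
        (f := fun k => (1 / (m : ℝ)) ^ k * 1 ^ (m * j - k) * ((m * j).choose k : ℝ))
        (fun k _ => by positivity) (Finset.mem_range.2 (Nat.lt_succ_of_le h))
      refine le_trans (le_of_eq ?_) h2
      rw [one_pow]
      ring
  have h2 : (1 + 1 / (m : ℝ)) ^ (m * j) ≤ 3 ^ j := by
    rw [pow_mul]
    refine pow_le_pow_left₀ (by positivity) ?_ j
    calc (1 + 1 / (m : ℝ)) ^ m ≤ (Real.exp (1 / m)) ^ m := by
          refine pow_le_pow_left₀ (by positivity) ?_ m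
          rw [add_comm]
          exact Real.add_one_le_exp _
      _ = Real.exp 1 := by
          rw [← Real.exp_nat_mul]
          congr 1
          field_simp
      _ ≤ 3 := by
          have := Real.exp_one_lt_d9
          linarith
  have h3 : (m : ℝ) ^ r * (1 / m) ^ r = 1 := by
    rw [← mul_pow, mul_one_div_cancel hm'.ne', one_pow]
  calc ((m * j).choose r : ℝ) = m ^ r * (((m * j).choose r : ℝ) * (1 / m) ^ r) := by
        rw [mul_left_comm, h3, mul_one]
    _ ≤ m ^ r * 3 ^ j := by
        refine mul_le_mul_of_nonneg_left (h1.trans h2) (by positivity)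

/-- from the tail to the binomial moments -/
theorem sum_choose {α : Type*} (S : Finset α) (X : α → ℕ) (K r : ℕ) (hK : 1 ≤ K) (M : ℝ)
    (h : ∀ i : ℕ, (4 : ℝ) ^ i * ((S.filter (fun a => K * i ≤ X a)).card : ℝ) ≤ M) :
    ∑ a ∈ S, ((4 * X a).choose r : ℝ) ≤ 12 * M * (4 * K) ^ r := by
  set J := S.sup X with hJ
  have h1 : ∀ a ∈ S, ((4 * X a).choose r : ℝ) ≤ (4 * K : ℕ) ^ r *
      (3 * ∑ i ∈ Finset.range (J + 1), if K * i ≤ X a then (3 : ℝ) ^ i else 0) := by
    intro a ha
    set j := X a / K with hj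
    have h2 : 4 * X a ≤ 4 * K * (j + 1) := by
      have := Nat.lt_mul_div_succ (X a) (show 0 < K by omega)
      rw [← hj] at this
      nlinarith
    have h3 : ((4 * X a).choose r : ℝ) ≤ ((4 * K * (j + 1)).choose r : ℝ) := by
      exact_mod_cast Nat.choose_le_choose r h2
    refine h3.trans ((choose_le_real (4 * K) r (j + 1) (by omega)).trans ?_)
    refine mul_le_mul_of_nonneg_left ?_ (by positivity)
    rw [pow_succ, mul_comm]
    refine mul_le_mul_of_nonneg_left ?_ (by norm_num)
    have hjJ : j ∈ Finset.range (J + 1) := by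
      rw [Finset.mem_range]
      have h4 : X a ≤ J := Finset.le_sup ha
      have h5 : j ≤ X a := Nat.div_le_self _ _
      omega
    have h6 := Finset.single_le_sum (s := Finset.range (J + 1))
      (f := fun i => if K * i ≤ X a then (3 : ℝ) ^ i else 0)
      (fun i _ => by
        show (0 : ℝ) ≤ if K * i ≤ X a then (3 : ℝ) ^ i else 0
        split_ifs
        · positivity
        · exact le_rfl) hjJ
    rwa [if_pos (Nat.mul_div_le _ _)] at h6
  refine (Finset.sum_le_sum h1).trans ?_
  rw [← Finset.mul_sum, ← Finset.mul_sum, Finset.sum_comm]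
  have h2 : ∀ i ∈ Finset.range (J + 1), ∑ a ∈ S, (if K * i ≤ X a then (3 : ℝ) ^ i else 0) ≤
      M * (3 / 4) ^ i := by
    intro i _
    rw [← Finset.sum_filter, Finset.sum_const, nsmul_eq_mul]
    have h3 := h i
    have h4 : (4 : ℝ) ^ i * (3 / 4) ^ i = 3 ^ i := by rw [← mul_pow]; norm_num
    calc ((S.filter (fun a => K * i ≤ X a)).card : ℝ) * 3 ^ i =
          ((4 : ℝ) ^ i * ((S.filter (fun a => K * i ≤ X a)).card : ℝ)) * (3 / 4) ^ i := by
            rw [← h4]; ring
      _ ≤ M * (3 / 4) ^ i := mul_le_mul_of_nonneg_right h3 (by positivity)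
  have hM : 0 ≤ M := by
    have := h 0
    have h5 : (0 : ℝ) ≤ (4 : ℝ) ^ 0 * ((S.filter (fun a => K * 0 ≤ X a)).card : ℝ) := by
      positivity
    linarith
  have h3 : ∑ i ∈ Finset.range (J + 1), M * (3 / 4 : ℝ) ^ i ≤ 4 * M := by
    rw [← Finset.mul_sum]
    have h4 : ∑ i ∈ Finset.range (J + 1), (3 / 4 : ℝ) ^ i ≤ 4 := by
      rw [geom_sum_eq (by norm_num)]
      have h5 : (0 : ℝ) ≤ (3 / 4) ^ (J + 1) := by positivity
      have e : ((3 / 4 : ℝ) ^ (J + 1) - 1) / (3 / 4 - 1) = 4 - 4 * (3 / 4) ^ (J + 1) := by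
        field_simp
        ring
      rw [e]
      linarith
    nlinarith
  have h4 := (Finset.sum_le_sum h2).trans h3
  push_cast
  have h5 : (0 : ℝ) ≤ (4 * (K : ℝ)) ^ r := by positivity
  nlinarith

/-- the constants of the level `e` -/
def Kc (e : ℕ) : ℕ := 73728 * 294912 ^ e

/-- the constants of the level `e` -/
def Cc (e : ℕ) : ℕ := 1152 * 13824 ^ e

theorem Kc_pos (e : ℕ) : 1 ≤ Kc e := Nat.mul_pos (by norm_num) (by positivity)

theorem Kc_succ (e : ℕ) : Kc (e + 1) = 1152 * (256 * Kc e) := by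
  unfold Kc
  rw [pow_succ]
  ring

theorem Cc_succ (e : ℕ) : Cc (e + 1) = 1152 * (12 * Cc e) := by
  unfold Cc
  rw [pow_succ]
  ring

theorem EE_card_le (A : Finset Pt) (B : List Pt) (e : ℕ) :
    (EE A B (e + 1)).card ≤ ∑ q ∈ codes ×ˢ classes, (QE A e q.1 q.2 B).card := by
  refine (Finset.card_le_card ?_).trans Finset.card_biUnion_le
  intro s hs
  obtain ⟨κ, x, L, hL⟩ := (mem_EE.1 hs).sg
  rw [Finset.mem_biUnion]
  refine ⟨(κ, cls s), ?_, ?_⟩
  · rw [Finset.mem_product]
    constructor
    · unfold codes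
      rw [Finset.mem_product, Finset.mem_product, Finset.mem_Icc, Finset.mem_Icc]
      have h1 := abs_le.1 hL.c1
      have h2 := abs_le.1 hL.c2
      exact ⟨Finset.mem_univ _, h1, h2⟩
    · unfold classes cls
      rw [Finset.mem_product, Finset.mem_Ico, Finset.mem_Ico]
      simp only
      omega
  · unfold QE
    rw [Finset.mem_filter]
    exact ⟨hs, rfl, x, L, hL⟩

/-- **Few walks have many places for surgeries.** -/
theorem tailE (A : Finset Pt) (e : ℕ) : ∀ r n : ℕ,
    (4 : ℝ) ^ r * (((Av A n).filter (fun B => Kc e * r ≤ (EE A B e).card)).card : ℝ) ≤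
      Cc e * ((LS n).ncard : ℝ) := by
  induction e with
  | zero =>
    intro r n
    have h := count3 A r n
    have e1 : ({B | B ∈ LS n ∧ (∀ v ∈ B, v ∈ A → v = 0) ∧ 73728 * r ≤ (QQ A B).card} :
        Set (List Pt)) = (((Av A n).filter (fun B => Kc 0 * r ≤ (EE A B 0).card) :
          Finset (List Pt)) : Set (List Pt)) := by
      ext B
      rw [Finset.coe_filter]
      simp only [Set.mem_ofPred_eq, mem_Av, and_assoc]
      have : Kc 0 = 73728 := rfl
      rw [this]
      rfl
    rw [e1, Set.ncard_coe_finset] at h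
    have : Cc 0 = 1152 := rfl
    rw [this]
    exact_mod_cast h
  | succ e ih =>
    intro r n
    rcases Nat.eq_zero_or_pos r with hr | hr
    · subst hr
      rw [pow_zero, one_mul]
      have h1 : ((Av A n).filter (fun B => Kc (e + 1) * 0 ≤ (EE A B (e + 1)).card)).card ≤
          (LS n).ncard := by
        rw [Set.ncard_eq_toFinset_card _ (LS_finite n)]
        refine Finset.card_le_card ?_
        intro B hB
        rw [Finset.mem_filter, mem_Av] at hB
        rw [Set.Finite.mem_toFinset]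
        exact hB.1.1
      have h2 : 1 ≤ Cc (e + 1) := Nat.mul_pos (by norm_num) (by positivity)
      calc (((Av A n).filter (fun B => Kc (e + 1) * 0 ≤ (EE A B (e + 1)).card)).card : ℝ) ≤
            1 * ((LS n).ncard : ℝ) := by rw [one_mul]; exact_mod_cast h1
        _ ≤ _ := by
            refine mul_le_mul_of_nonneg_right ?_ (Nat.cast_nonneg _)
            exact_mod_cast h2
    set U : Bool × Pt → Pt → Finset (List Pt) := fun κ c =>
      (Av A n).filter (fun B => 256 * Kc e * r ≤ (QE A e κ c B).card) with hU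
    have hsub : (Av A n).filter (fun B => Kc (e + 1) * r ≤ (EE A B (e + 1)).card) ⊆
        (codes ×ˢ classes).biUnion (fun q => U q.1 q.2) := by
      intro B hB
      rw [Finset.mem_filter] at hB
      obtain ⟨h1, h2⟩ := hB
      have h4 := h2.trans (EE_card_le A B e)
      by_contra hcon
      simp only [Finset.mem_biUnion, not_exists, not_and] at hcon
      have h5 : ∀ q ∈ codes ×ˢ classes, (QE A e q.1 q.2 B).card < 256 * Kc e * r := by
        intro q hq
        by_contra h
        exact hcon q hq (Finset.mem_filter.2 ⟨h1, by omega⟩)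
      have h6 : ∑ q ∈ codes ×ˢ classes, (QE A e q.1 q.2 B).card < 1152 * (256 * Kc e * r) := by
        calc _ < ∑ q ∈ codes ×ˢ classes, 256 * Kc e * r := by
              refine Finset.sum_lt_sum_of_nonempty ?_ h5
              rw [← Finset.card_pos, card_cc]
              norm_num
          _ = _ := by rw [Finset.sum_const, card_cc, smul_eq_mul]
      rw [Kc_succ] at h4
      have h7 : 1152 * (256 * Kc e) * r = 1152 * (256 * Kc e * r) := by ring
      omega
    have h1 : (((Av A n).filter (fun B => Kc (e + 1) * r ≤ (EE A B (e + 1)).card)).card : ℝ) ≤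
        ∑ q ∈ codes ×ˢ classes, ((U q.1 q.2).card : ℝ) := by
      exact_mod_cast (Finset.card_le_card hsub).trans Finset.card_biUnion_le
    have h2 : ∀ q ∈ codes ×ˢ classes, (4 : ℝ) ^ r * ((U q.1 q.2).card : ℝ) ≤
        12 * Cc e * ((LS n).ncard : ℝ) := by
      rintro ⟨κ, c⟩ _
      simp only
      set n' := n + (if κ.1 = true then 2 else 0) * r with hn'
      have h3 := weigh A e κ c r n
      rw [← hn'] at h3
      have h4 : ((U κ c).card : ℝ) * (256 * Kc e : ℕ) ^ r ≤
          ∑ B ∈ Av A n, ((QE A e κ c B).card.choose r : ℝ) := by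
        have h5 : (U κ c).card * (256 * Kc e) ^ r ≤ ∑ B ∈ Av A n, (QE A e κ c B).card.choose r := by
          calc (U κ c).card * (256 * Kc e) ^ r = ∑ B ∈ U κ c, (256 * Kc e) ^ r := by
                rw [Finset.sum_const, smul_eq_mul]
            _ ≤ ∑ B ∈ U κ c, (QE A e κ c B).card.choose r := by
                refine Finset.sum_le_sum (fun B hB => ?_)
                rw [hU, Finset.mem_filter] at hB
                refine (choose_ge (256 * Kc e) r ?_).trans (Nat.choose_le_choose r hB.2)
                have := Kc_pos e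
                omega
            _ ≤ _ := Finset.sum_le_sum_of_subset (Finset.filter_subset _ _)
        exact_mod_cast h5
      have h5 : ∑ B ∈ Av A n, ((QE A e κ c B).card.choose r : ℝ) ≤
          ∑ B ∈ Av A n', ((4 * (EE A B e).card).choose r : ℝ) := by exact_mod_cast h3
      have h6 := sum_choose (Av A n') (fun B => (EE A B e).card) (Kc e) r (Kc_pos e)
        (Cc e * ((LS n').ncard : ℝ)) (fun i => ih i n')
      have h7 : ((LS n').ncard : ℝ) ≤ 16 ^ r * ((LS n).ncard : ℝ) := by
        have : (LS n').ncard ≤ 16 ^ r * (LS n).ncard := by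
          rw [hn']
          split_ifs with h
          · exact LS_add n r
          · simp only [zero_mul, add_zero]
            exact Nat.le_mul_of_pos_left _ (by positivity)
        exact_mod_cast this
      have hKp : (0 : ℝ) < Kc e := by exact_mod_cast Kc_pos e
      have hCp : (0 : ℝ) ≤ Cc e := Nat.cast_nonneg _
      have h8 : ((U κ c).card : ℝ) * (256 * Kc e : ℕ) ^ r ≤
          12 * (Cc e * (16 ^ r * ((LS n).ncard : ℝ))) * (4 * (Kc e : ℝ)) ^ r := by
        refine h4.trans (h5.trans (h6.trans ?_))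
        have h9 : (0 : ℝ) ≤ (4 * (Kc e : ℝ)) ^ r := by positivity
        refine mul_le_mul_of_nonneg_right ?_ h9
        refine mul_le_mul_of_nonneg_left ?_ (by norm_num)
        exact mul_le_mul_of_nonneg_left h7 hCp
      have e1 : (((256 * Kc e : ℕ)) : ℝ) ^ r = 4 ^ r * (16 ^ r * (4 * (Kc e : ℝ)) ^ r) := by
        rw [← mul_pow, ← mul_pow]
        congr 1
        push_cast
        ring
      rw [e1] at h8
      have h10 : (0 : ℝ) < 16 ^ r * (4 * (Kc e : ℝ)) ^ r := by positivity
      refine le_of_mul_le_mul_right ?_ h10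
      calc (4 : ℝ) ^ r * ((U κ c).card : ℝ) * (16 ^ r * (4 * (Kc e : ℝ)) ^ r) =
            ((U κ c).card : ℝ) * (4 ^ r * (16 ^ r * (4 * (Kc e : ℝ)) ^ r)) := by ring
        _ ≤ _ := h8
        _ = _ := by ring
    calc (4 : ℝ) ^ r * (((Av A n).filter (fun B => Kc (e + 1) * r ≤
          (EE A B (e + 1)).card)).card : ℝ)
        ≤ 4 ^ r * ∑ q ∈ codes ×ˢ classes, ((U q.1 q.2).card : ℝ) :=
          mul_le_mul_of_nonneg_left h1 (by positivity)
      _ = ∑ q ∈ codes ×ˢ classes, 4 ^ r * ((U q.1 q.2).card : ℝ) := Finset.mul_sum _ _ _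
      _ ≤ ∑ q ∈ codes ×ˢ classes, 12 * Cc e * ((LS n).ncard : ℝ) := Finset.sum_le_sum h2
      _ = Cc (e + 1) * ((LS n).ncard : ℝ) := by
          rw [Finset.sum_const, card_cc, nsmul_eq_mul, Cc_succ]
          push_cast
          ring

end Run7.h738.ND
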