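import Pool.Agent.W840.CT.Split
import Pool.Agent.Run7.h738.ND.Rec

/-! # Close pairs of points of two walks -/

set_option autoImplicit false

namespace Run7.h738.ND

open scoped Classical
open Pool.Agent.W840.CT

/-- number of pairs of points of `A` and `B`, away from the origin, at distance at most `w` -/
noncomputable def KW (w : ℕ) (A B : Finset Pt) : ℕ :=
  (((A.erase 0) ×ˢ (B.erase 0)).filter (fun q => D q.1 q.2 ≤ w)).card

/-- the margin of the level `e` -/
def F (e : ℕ) : ℕ := (e + 2) ^ 2 + e + 10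

theorem F_mono {e e' : ℕ} (h : e < e') : F e + 2 * e' + 3 ≤ F e' := by
  unfold F
  obtain ⟨d, rfl⟩ : ∃ d, e' = e + 1 + d := ⟨e' - e - 1, by omega⟩
  nlinarith

theorem F_le {e e' : ℕ} (h : e ≤ e') : F e ≤ F e' := by
  rcases Nat.lt_or_ge e e' with h1 | h1
  · have := F_mono h1
    omega
  · rw [Nat.le_antisymm h h1]

/-- **Descent to a place for a surgery.** -/
theorem descent {n m : ℕ} {A B : List Pt} (hA : A ∈ LS n) (hB : B ∈ LS m)
    (hd : ∀ v ∈ B, v ∈ A → v = 0) (e : ℕ) : ∀ a ∈ A, ∀ b ∈ B, D b a = e + 1 →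
    F e ≤ D 0 b → F e ≤ D (A.getLastD 0) b → F e ≤ D (B.getLastD 0) b →
    ∃ e' ≤ e, ∃ s ∈ EE A.toFinset B e', D b s ≤ F e := by
  induction e using Nat.strong_induction_on with
  | _ e ih =>
  intro a ha b hb hab h0 hlA hlB
  obtain ⟨a1, a2, a3, a4⟩ := hA
  obtain ⟨b1, b2, b3, b4⟩ := hB
  have hF : e + 14 ≤ F e := by
    unfold F
    nlinarith
  have t0 := D_tri 0 a b
  have tA := D_tri (A.getLastD 0) a b
  have tB := D_tri (B.getLastD 0) a b
  rw [D_comm a b, hab] at t0 tA tB
  -- `a` has two neighbours along `A`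
  obtain ⟨z, w, hz, hw⟩ : Inn A a := inn_of a2 ha (by omega) (by omega)
  have hTwo : Two A.toFinset a := ⟨List.mem_toFinset.2 ha, z, List.mem_toFinset.2 hz.mem_left,
    w, List.mem_toFinset.2 hw.mem_right, Con.ne a4 hz hw, adj_comm (hz.adj a3), hw.adj a3⟩
  rcases Nat.eq_zero_or_pos e with he | he
  · -- contact
    subst he
    have hadj : adj a b := by rw [adj_iff_D, D_comm]; omega
    refine ⟨0, le_rfl, a, ?_, by omega⟩
    show a ∈ QQ A.toFinset B
    unfold QQ
    rw [Finset.mem_filter]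
    refine ⟨List.mem_toFinset.2 ha, ?_, ?_⟩
    · unfold far
      rw [Int.abs_eq_natAbs, Int.abs_eq_natAbs]
      unfold D at t0 h0
      simp only [Prod.fst_zero, Prod.snd_zero, sub_zero] at t0 h0
      omega
    · refine loc (A := {x | x ∈ A}) b3 b4 ha hz.mem_left hw.mem_right (Con.ne a4 hz hw)
        (adj_comm (hz.adj a3)) (hw.adj a3) hb hadj (fun u hu hu1 hu2 => ?_)
      have h4 : D a u ≤ 4 := by
        rw [Int.abs_eq_natAbs] at hu1 hu2
        unfold D
        omega
      rw [D_comm] at h4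
      have t2 := D_tri 0 u a
      have t3 := D_tri (B.getLastD 0) u a
      have h5 : Inn B u := inn_of b2 hu (by omega) (by omega)
      refine ⟨h5, fun huA => ?_⟩
      have := hd u hu huA
      rw [this] at h4
      omega
  · by_cases hmin : ∀ a' ∈ A, D b a' ≤ e + 3 → ∀ b' ∈ B, e + 1 ≤ D a' b'
    · obtain ⟨s, h1, h2, h3⟩ := step (A := {x | x ∈ A}) b3 b4 he hb ha hab hz.mem_left
        hw.mem_right (Con.ne a4 hz hw) (adj_comm (hz.adj a3)) (hw.adj a3) hmin (fun v hv hv2 => by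
          have t2 := D_tri 0 v b
          have t3 := D_tri (B.getLastD 0) v b
          rw [D_comm] at hv2
          exact inn_of b2 hv (by omega) (by omega))
      have h1' := adj_iff_D.1 h1
      refine ⟨e, le_rfl, s, ?_, by omega⟩
      obtain ⟨e', rfl⟩ : ∃ e', e = e' + 1 := ⟨e - 1, by omega⟩
      rw [mem_EE]
      refine ⟨⟨a, hTwo, h2⟩, ?_, ?_, ?_, h3⟩
      · intro a' ha' hsa b' hb'
        refine hmin a' (List.mem_toFinset.1 ha') ?_ b' hb'
        have := D_tri b s a'
        omega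
      · have := D_tri 0 s b
        rw [D_comm s b] at this
        omega
      · have := D_tri (B.getLastD 0) s b
        rw [D_comm s b] at this
        omega
    · push Not at hmin
      obtain ⟨a', ha', hba', b', hb', hab'⟩ := hmin
      have t1 := D_tri b a' b'
      have t2 := D_tri 0 b' b
      have t3 := D_tri (A.getLastD 0) b' b
      have t4 := D_tri (B.getLastD 0) b' b
      have hne : D a' b' ≠ 0 := by
        intro h
        have h5 := D_eq_zero h
        have h6 := hd b' hb' (h5 ▸ ha')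
        rw [h5.trans h6, D_comm b 0] at hba'
        omega
      obtain ⟨e', he'⟩ : ∃ e', D a' b' = e' + 1 := ⟨D a' b' - 1, by omega⟩
      have hlt : e' < e := by omega
      have hFm := F_mono hlt
      rw [D_comm b' b] at t2 t3 t4
      obtain ⟨e'', h1, s, hs, h2⟩ := ih e' hlt a' ha' b' hb' (by rw [D_comm]; exact he')
        (by omega) (by omega) (by omega)
      refine ⟨e'', by omega, s, hs, ?_⟩
      have := D_tri b b' s
      omega

/-- the `ℓ^∞` ball -/
noncomputable def Bx (ρ : ℕ) (z : Pt) : Finset Pt :=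
  Finset.Icc (z.1 - ρ) (z.1 + ρ) ×ˢ Finset.Icc (z.2 - ρ) (z.2 + ρ)

theorem Bx_card (ρ : ℕ) (z : Pt) : (Bx ρ z).card = (2 * ρ + 1) ^ 2 := by
  unfold Bx
  rw [Finset.card_product, Int.card_Icc, Int.card_Icc]
  have h1 : (z.1 + ρ + 1 - (z.1 - ρ)).toNat = 2 * ρ + 1 := by omega
  have h2 : (z.2 + ρ + 1 - (z.2 - ρ)).toNat = 2 * ρ + 1 := by omega
  rw [h1, h2, sq]

theorem mem_Bx {ρ : ℕ} {z b : Pt} (h : D z b ≤ ρ) : b ∈ Bx ρ z := by
  unfold Bx
  rw [Finset.mem_product, Finset.mem_Icc, Finset.mem_Icc]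
  unfold D at h
  omega

/-- the polynomial factor -/
def G (w : ℕ) : ℕ := (2 * w + 1) ^ 2 * (2 * F w + 1) ^ 2

/-- **Close pairs are near the places for surgeries.** -/
theorem KW_le {n m : ℕ} {A B : List Pt} (hA : A ∈ LS n) (hB : B ∈ LS m)
    (hd : ∀ v ∈ B, v ∈ A → v = 0) (w : ℕ) :
    KW w A.toFinset B.toFinset ≤
      G w * (3 + ∑ e ∈ Finset.range w, (EE A.toFinset B e).card) := by
  set Z : Finset Pt := {0, A.getLastD 0, B.getLastD 0} ∪
    (Finset.range w).biUnion (fun e => EE A.toFinset B e) with hZ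
  have hZc : Z.card ≤ 3 + ∑ e ∈ Finset.range w, (EE A.toFinset B e).card := by
    refine (Finset.card_union_le _ _).trans (add_le_add Finset.card_le_three ?_)
    exact Finset.card_biUnion_le
  set S := ((A.toFinset.erase 0) ×ˢ (B.toFinset.erase 0)).filter
    (fun q : Pt × Pt => D q.1 q.2 ≤ w) with hS
  have hsub : S ⊆ (Z.biUnion (Bx (F w))).biUnion (fun b => (Bx w b).image (fun a => (a, b))) := by
    rintro ⟨a, b⟩ hq
    simp only [hS, Finset.mem_filter, Finset.mem_product, Finset.mem_erase,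
      List.mem_toFinset] at hq
    obtain ⟨⟨⟨ha0, ha⟩, hb0, hb⟩, hab⟩ := hq
    rw [Finset.mem_biUnion]
    refine ⟨b, ?_, ?_⟩
    · rw [Finset.mem_biUnion]
      have hne : D b a ≠ 0 := by
        intro h
        have h5 := D_eq_zero h
        rw [h5] at hb hb0
        exact hb0 (hd a hb ha)
      obtain ⟨e, he⟩ : ∃ e, D b a = e + 1 := ⟨D b a - 1, by omega⟩
      have hew : e < w := by rw [D_comm] at he; omega
      have hFe := F_le hew.le
      by_cases h0 : F e ≤ D 0 b
      swap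
      · exact ⟨0, by simp [hZ], mem_Bx (by omega)⟩
      by_cases h1 : F e ≤ D (A.getLastD 0) b
      swap
      · exact ⟨A.getLastD 0, by simp [hZ], mem_Bx (by omega)⟩
      by_cases h2 : F e ≤ D (B.getLastD 0) b
      swap
      · exact ⟨B.getLastD 0, by simp [hZ], mem_Bx (by omega)⟩
      obtain ⟨e', he', s, hs, hbs⟩ := descent hA hB hd e a ha b hb he h0 h1 h2
      refine ⟨s, ?_, mem_Bx (by rw [D_comm]; omega)⟩
      rw [hZ, Finset.mem_union]
      right
      rw [Finset.mem_biUnion]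
      exact ⟨e', Finset.mem_range.2 (by omega), hs⟩
    · rw [Finset.mem_image]
      exact ⟨a, mem_Bx (by rw [D_comm]; exact hab), rfl⟩
  have h1 := Finset.card_le_card hsub
  have h2 : ((Z.biUnion (Bx (F w))).biUnion
      (fun b => (Bx w b).image (fun a => (a, b)))).card ≤
      (Z.biUnion (Bx (F w))).card * (2 * w + 1) ^ 2 := by
    refine Finset.card_biUnion_le.trans ?_
    rw [← smul_eq_mul, ← Finset.sum_const]
    refine Finset.sum_le_sum (fun b _ => ?_)
    refine Finset.card_image_le.trans ?_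
    rw [Bx_card]
  have h3 : (Z.biUnion (Bx (F w))).card ≤ Z.card * (2 * F w + 1) ^ 2 := by
    refine Finset.card_biUnion_le.trans ?_
    rw [← smul_eq_mul, ← Finset.sum_const]
    exact Finset.sum_le_sum (fun z _ => (Bx_card _ _).le)
  unfold KW
  rw [← hS]
  calc S.card ≤ (Z.biUnion (Bx (F w))).card * (2 * w + 1) ^ 2 := h1.trans h2
    _ ≤ (Z.card * (2 * F w + 1) ^ 2) * (2 * w + 1) ^ 2 := Nat.mul_le_mul_right _ h3
    _ = G w * Z.card := by unfold G; ring
    _ ≤ _ := Nat.mul_le_mul_left _ hZc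

/-- pairs of walks which meet only at the origin and have many close pairs of points -/
def PW (w n m J : ℕ) : Set (List Pt × List Pt) :=
  {q | q.1 ∈ LS n ∧ q.2 ∈ LS m ∧ (∀ v ∈ q.2, v ∈ q.1 → v = 0) ∧
    J ≤ KW w q.1.toFinset q.2.toFinset}

theorem PW_finite (w n m J : ℕ) : (PW w n m J).Finite :=
  ((LS_finite n).prod (LS_finite m)).subset (fun _ hq => ⟨hq.1, hq.2.1⟩)

/-- the slope -/
def Sl (w : ℕ) : ℕ := G w * ∑ e ∈ Finset.range w, Kc e

/-- the prefactor -/
def Pf (w : ℕ) : ℕ := ∑ e ∈ Finset.range w, Cc e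

theorem PW_card (w n m r : ℕ) (hw : 1 ≤ w) :
    4 ^ r * (PW w n m (Sl w * r + 3 * G w)).ncard ≤ Pf w * ((LS n).ncard * (LS m).ncard) := by
  set H : List Pt → ℕ → Finset (List Pt) := fun A e =>
    (Av A.toFinset m).filter (fun B => Kc e * r ≤ (EE A.toFinset B e).card) with hH
  have hsub : (PW w n m (Sl w * r + 3 * G w)) ⊆
      (((LS_finite n).toFinset.sigma (fun A => (Finset.range w).biUnion (H A))).image
        (fun q : (Σ _ : List Pt, List Pt) => (q.1, q.2)) : Finset (List Pt × List Pt)) := by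
    rintro ⟨A, B⟩ ⟨h1, h2, h3, h4⟩
    simp only at h1 h2 h3 h4
    rw [Finset.mem_coe, Finset.mem_image]
    refine ⟨⟨A, B⟩, ?_, rfl⟩
    rw [Finset.mem_sigma, Set.Finite.mem_toFinset, Finset.mem_biUnion]
    refine ⟨h1, ?_⟩
    have h5 := KW_le h1 h2 h3 w
    have hG : 0 < G w := by unfold G; positivity
    have h6 : G w * (3 + r * ∑ e ∈ Finset.range w, Kc e) ≤
        G w * (3 + ∑ e ∈ Finset.range w, (EE A.toFinset B e).card) := by
      refine le_trans (le_of_eq ?_) (h4.trans h5)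
      unfold Sl
      ring
    have h7 := Nat.le_of_mul_le_mul_left h6 hG
    have h8 : ∑ e ∈ Finset.range w, Kc e * r ≤
        ∑ e ∈ Finset.range w, (EE A.toFinset B e).card := by
      rw [← Finset.sum_mul, mul_comm]
      omega
    obtain ⟨e, he, h9⟩ := Finset.exists_le_of_sum_le ⟨0, Finset.mem_range.2 (by omega)⟩ h8
    refine ⟨e, he, ?_⟩
    simp only [hH]
    rw [Finset.mem_filter, mem_Av]
    exact ⟨⟨h2, fun v hv hvA => h3 v hv (List.mem_toFinset.1 hvA)⟩, h9⟩
  have h1 : (PW w n m (Sl w * r + 3 * G w)).ncard ≤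
      ∑ A ∈ (LS_finite n).toFinset, ∑ e ∈ Finset.range w, (H A e).card := by
    refine (Set.ncard_le_ncard hsub (Finset.finite_toSet _)).trans ?_
    rw [Set.ncard_coe_finset]
    refine Finset.card_image_le.trans ?_
    rw [Finset.card_sigma]
    exact Finset.sum_le_sum (fun A _ => Finset.card_biUnion_le)
  have h2 : ∀ A : List Pt, ∀ e, 4 ^ r * (H A e).card ≤ Cc e * (LS m).ncard := by
    intro A e
    have := tailE A.toFinset e r m
    exact_mod_cast this
  calc 4 ^ r * (PW w n m (Sl w * r + 3 * G w)).ncard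
      ≤ 4 ^ r * ∑ A ∈ (LS_finite n).toFinset, ∑ e ∈ Finset.range w, (H A e).card :=
        Nat.mul_le_mul_left _ h1
    _ = ∑ A ∈ (LS_finite n).toFinset, ∑ e ∈ Finset.range w, 4 ^ r * (H A e).card := by
        rw [Finset.mul_sum]
        exact Finset.sum_congr rfl (fun A _ => Finset.mul_sum _ _ _)
    _ ≤ ∑ A ∈ (LS_finite n).toFinset, ∑ e ∈ Finset.range w, Cc e * (LS m).ncard :=
        Finset.sum_le_sum (fun A _ => Finset.sum_le_sum (fun e _ => h2 A e))
    _ = Pf w * ((LS n).ncard * (LS m).ncard) := by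
        rw [Finset.sum_const, smul_eq_mul, ← Set.ncard_eq_toFinset_card _ (LS_finite n),
          ← Finset.sum_mul]
        unfold Pf
        ring

/-- close pairs across time `t` -/
noncomputable def TW (w N t : ℕ) (ω : Fin (N + 1) → ℤ × ℤ) : ℕ :=
  ((Finset.univ : Finset (Fin (N + 1) × Fin (N + 1))).filter
    (fun q => q.1.1 < t ∧ t < q.2.1 ∧ D (ω q.1) (ω q.2) ≤ w)).card

theorem D_sub (p q v : Pt) : D (p - v) (q - v) = D p q := by
  unfold D
  simp only [Prod.fst_sub, Prod.snd_sub, sub_sub_sub_cancel_right]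

theorem TW_le (w : ℕ) {N : ℕ} {ω : Fin (N + 1) → ℤ × ℤ} (h : SW N ω) {t : ℕ} (ht : t ≤ N) :
    TW w N t ω ≤ KW w (pa ω t).toFinset (fu ω t).toFinset := by
  unfold TW KW
  refine Finset.card_le_card_of_injOn
    (fun q => (ex ω q.1.1 - ex ω t, ex ω q.2.1 - ex ω t)) ?_ ?_
  · rintro ⟨i, j⟩ hq
    simp only [Finset.coe_filter, Finset.mem_univ, true_and, Set.mem_ofPred_eq] at hq
    obtain ⟨h1, h2, h3⟩ := hq
    have hi := i.2
    have hj := j.2
    simp only [Finset.coe_filter, Finset.mem_product, Finset.mem_erase, List.mem_toFinset,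
      Set.mem_ofPred_eq]
    refine ⟨⟨⟨?_, ?_⟩, ?_, ?_⟩, ?_⟩
    · intro h4
      have := h.inj (by omega) (by omega) (sub_eq_zero.1 h4)
      omega
    · unfold pa
      rw [List.mem_map]
      refine ⟨t - i.1, List.mem_range.2 (by omega), ?_⟩
      rw [show t - (t - i.1) = i.1 by omega]
    · intro h4
      have := h.inj (by omega) (by omega) (sub_eq_zero.1 h4)
      omega
    · unfold fu
      rw [List.mem_map]
      refine ⟨j.1 - t, List.mem_range.2 (by omega), ?_⟩
      rw [show t + (j.1 - t) = j.1 by omega]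
    · rw [D_sub, ex_val, ex_val]
      exact h3
  · rintro ⟨i, j⟩ hq ⟨i', j'⟩ hq' h4
    simp only [Prod.mk.injEq] at h4
    have hi := i.2
    have hj := j.2
    have hi' := i'.2
    have hj' := j'.2
    have e1 := h.inj (by omega) (by omega) (sub_left_injective h4.1)
    have e2 := h.inj (by omega) (by omega) (sub_left_injective h4.2)
    rw [Prod.mk.injEq]
    exact ⟨Fin.ext e1, Fin.ext e2⟩

theorem splitW (w N t J : ℕ) (ht : t ≤ N) :
    ({ω | SW N ω ∧ J ≤ TW w N t ω} : Set (Fin (N + 1) → ℤ × ℤ)).ncard ≤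
      (PW w t (N - t) J).ncard := by
  refine Set.ncard_le_ncard_of_injOn (fun ω => (pa ω t, fu ω t)) ?_ ?_ (PW_finite _ _ _ _)
  · rintro ω ⟨h1, h2⟩
    exact ⟨pa_mem h1 ht, fu_mem h1 ht, split_disj h1 ht, h2.trans (TW_le w h1 ht)⟩
  · rintro ω ⟨h1, -⟩ ω' ⟨h1', -⟩ h
    simp only [Prod.mk.injEq] at h
    exact split_inj h1 h1' ht h.1 h.2

end Run7.h738.ND
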