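import Pool.Agent.TH546.SG.Inst2
import Pool.Agent.Run7.h738.ND.Pairs

/-! # Mean numbers of close pairs, uniformly in the length of the walk

The scheme of `Pool.Agent.TH546.SG.Loops` for contacts, with the relation `D ≤ w` in place of the
adjacency and with explicit constants. -/

set_option autoImplicit false

namespace Run7.h738.ND

open scoped Classical
open Pool.Agent.W840.CT hiding tail_all
open Pool.Agent.TH546.SAW hiding avg avg2 entropy variational transfer window_mean max_mean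
  loop_mean far_mean
open Pool.Agent.TH546.SG

/-- few walks have many close pairs across a time -/
def Cnt (w a b C : ℕ) : Prop := 1 ≤ a ∧ 1 ≤ C ∧ ∀ N t r : ℕ, t ≤ N →
  4 ^ r * ({ω | SW N ω ∧ a * r + b ≤ TW w N t ω} : Set (Fin (N + 1) → ℤ × ℤ)).ncard ≤
    C * (cn t * cn (N - t))

/-- the size of the constants -/
noncomputable def MM (a b C : ℕ) : ℝ := ((a : ℝ) + b) * (1 + Real.log C)

theorem MM_pos {a b C : ℕ} (ha : 1 ≤ a) : 0 < MM a b C := by
  have h1 : (0 : ℝ) ≤ Real.log C := Real.log_natCast_nonneg C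
  have h2 : (1 : ℝ) ≤ a := by exact_mod_cast ha
  unfold MM
  positivity

theorem TW_zero {w N t : ℕ} (h : N < t) (ω : Fin (N + 1) → ℤ × ℤ) : TW w N t ω = 0 := by
  unfold TW
  rw [Finset.card_eq_zero, Finset.filter_eq_empty_iff]
  rintro q - ⟨-, h2, -⟩
  have := q.2.2
  omega

theorem TW_le_sq (w n t : ℕ) (ω : Fin (n + 1) → ℤ × ℤ) : TW w n t ω ≤ (n + 1) * (n + 1) := by
  unfold TW
  have h1 := Finset.card_filter_le (Finset.univ : Finset (Fin (n + 1) × Fin (n + 1)))
    (fun q => q.1.1 < t ∧ t < q.2.1 ∧ D (ω q.1) (ω q.2) ≤ w)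
  rw [Finset.card_univ, Fintype.card_prod, Fintype.card_fin] at h1
  exact h1

/-- **Tail bound.** -/
theorem tail_w {p : ℕ} (hp : 1 ≤ p) (hcu : CU p) : ∃ K : ℝ, 0 < K ∧ ∀ w a b C : ℕ, Cnt w a b C →
    ∀ N : ℕ, 2 ≤ N → ∀ x : ℝ, 0 ≤ x →
    (({ω | SW N ω ∧ ∃ t, K * MM a b C * (Real.log N ^ p + x) < TW w N t ω} :
      Set (Fin (N + 1) → ℤ × ℤ)).ncard : ℝ) ≤ Real.exp (-x) * cn N := by
  obtain ⟨K, hK, h⟩ := hcu
  refine ⟨6 * (3 / 2) ^ p + 2 * K + 1, by positivity, fun w a b C hC N hN x hx => ?_⟩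
  obtain ⟨ha, hC1, hcnt⟩ := hC
  set L := Real.log N with hL
  set E : ℝ := (3 / 2) ^ p with hE
  set l := Real.log C with hl
  have hl0 : 0 ≤ l := Real.log_natCast_nonneg C
  have hC0 : (0 : ℝ) < C := by exact_mod_cast hC1
  have hE1 : 1 ≤ E := one_le_pow₀ (by norm_num)
  have hN' : (2 : ℝ) ≤ N := by exact_mod_cast hN
  have hlogN : (0.69 : ℝ) < L := log_ge hN
  have hLP0 : (0 : ℝ) ≤ L ^ p := by positivity
  have hone1 : (1 : ℝ) ≤ E * L ^ p := one_le_LP p hN
  have hLL : L ≤ E * L ^ p := by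
    rw [hE, ← mul_pow]
    have h1 : (1 : ℝ) ≤ 3 / 2 * L := by linarith
    calc L ≤ 3 / 2 * L := by linarith
      _ = (3 / 2 * L) ^ 1 := (pow_one _).symm
      _ ≤ (3 / 2 * L) ^ p := pow_le_pow_right₀ h1 hp
  have hlogA : Real.log (C * ((N : ℝ) + 1)) ≤ l + 2 * (E * L ^ p) := by
    rw [Real.log_mul (by positivity) (by positivity)]
    have h2 : Real.log ((N : ℝ) + 1) ≤ 2 * L := by
      calc Real.log ((N : ℝ) + 1) ≤ Real.log ((N : ℝ) ^ 2) :=
            Real.log_le_log (by positivity) (by nlinarith)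
        _ = 2 * L := by rw [Real.log_pow, hL]; norm_num
    linarith
  have hC1' : (1 : ℝ) ≤ C := by exact_mod_cast hC1
  set y := x + Real.log (C * ((N : ℝ) + 1)) + 2 * (K * L ^ p) with hy
  set r := ⌈y⌉₊ with hr
  have hy0 : 0 ≤ y := by
    have : 0 ≤ Real.log (C * ((N : ℝ) + 1)) := Real.log_nonneg (by nlinarith)
    positivity
  have hr1 : (r : ℝ) ≤ y + 1 := (Nat.ceil_lt_add_one hy0).le
  have hr2 : y ≤ r := Nat.le_ceil _
  have ha' : (1 : ℝ) ≤ a := by exact_mod_cast ha
  have hb' : (0 : ℝ) ≤ b := Nat.cast_nonneg b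
  have hthr : (a : ℝ) * r + b ≤ (6 * E + 2 * K + 1) * MM a b C * (L ^ p + x) := by
    have h1 : (a : ℝ) * r + b ≤ (a + b) * (r + 1) := by
      have : (0 : ℝ) ≤ r := Nat.cast_nonneg r
      nlinarith
    have h2 : (r : ℝ) + 1 ≤ (6 * E + 2 * K + 1) * (1 + l) * (L ^ p + x) := by
      have h3 : (r : ℝ) + 1 ≤ x + l + 2 * (E * L ^ p) + 2 * (K * L ^ p) + 2 := by linarith
      have h4 : x + l + 2 * (E * L ^ p) + 2 * (K * L ^ p) + 2 ≤
          (x + 4 * (E * L ^ p) + 2 * (K * L ^ p)) * (1 + l) := by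
        have e1 : 0 ≤ x * l := by positivity
        have e2 : l ≤ 4 * (E * L ^ p) * l := by nlinarith
        have e3 : 0 ≤ K * L ^ p * l := by positivity
        nlinarith
      have h5 : x + 4 * (E * L ^ p) + 2 * (K * L ^ p) ≤ (6 * E + 2 * K + 1) * (L ^ p + x) := by
        have e1 : 0 ≤ E * x := by positivity
        have e2 : 0 ≤ K * x := by positivity
        have e3 : 0 ≤ E * L ^ p := by positivity
        nlinarith
      calc (r : ℝ) + 1 ≤ (x + 4 * (E * L ^ p) + 2 * (K * L ^ p)) * (1 + l) := h3.trans h4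
        _ ≤ ((6 * E + 2 * K + 1) * (L ^ p + x)) * (1 + l) :=
            mul_le_mul_of_nonneg_right h5 (by positivity)
        _ = _ := by ring
    calc (a : ℝ) * r + b ≤ (a + b) * (r + 1) := h1
      _ ≤ (a + b) * ((6 * E + 2 * K + 1) * (1 + l) * (L ^ p + x)) :=
          mul_le_mul_of_nonneg_left h2 (by positivity)
      _ = _ := by unfold MM; ring
  -- the union bound
  have hone : ∀ t ∈ Finset.range (N + 1),
      (({ω | SW N ω ∧ a * r + b ≤ TW w N t ω} :
        Set (Fin (N + 1) → ℤ × ℤ)).ncard : ℝ) ≤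
      Real.exp (-(r : ℝ)) * (C * (Real.exp (2 * (K * L ^ p)) * cn N)) := by
    intro t ht
    rw [Finset.mem_range] at ht
    have h1 := hcnt N t r (by omega)
    have h2 : (4 : ℝ) ^ r * (({ω | SW N ω ∧ a * r + b ≤ TW w N t ω} :
        Set (Fin (N + 1) → ℤ × ℤ)).ncard : ℝ) ≤ C * ((cn t : ℝ) * cn (N - t)) := by
      exact_mod_cast h1
    have h3 := h N hN t (by omega)
    have h4 := h N hN (N - t) (by omega)
    have h5 : (cn t : ℝ) * cn (N - t) ≤ Real.exp (2 * (K * L ^ p)) * cn N := by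
      calc (cn t : ℝ) * cn (N - t) ≤ (H981.mu ^ t * Real.exp (K * L ^ p)) *
            (H981.mu ^ (N - t) * Real.exp (K * L ^ p)) := by
              refine mul_le_mul h3 h4 (by positivity) ?_
              have := mu_pos
              positivity
        _ = Real.exp (2 * (K * L ^ p)) * H981.mu ^ (t + (N - t)) := by
            rw [two_mul, Real.exp_add, pow_add]; ring
        _ = Real.exp (2 * (K * L ^ p)) * H981.mu ^ N := by
            rw [show t + (N - t) = N by omega]
        _ ≤ _ := mul_le_mul_of_nonneg_left (mu_pow_le_cn N) (Real.exp_pos _).le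
    have h6 := four_pow_ge r
    have h7 : Real.exp r * (({ω | SW N ω ∧ a * r + b ≤ TW w N t ω} :
        Set (Fin (N + 1) → ℤ × ℤ)).ncard : ℝ) ≤
        C * (Real.exp (2 * (K * L ^ p)) * cn N) := by
      calc _ ≤ (4 : ℝ) ^ r * (({ω | SW N ω ∧ a * r + b ≤ TW w N t ω} :
            Set (Fin (N + 1) → ℤ × ℤ)).ncard : ℝ) :=
              mul_le_mul_of_nonneg_right h6 (Nat.cast_nonneg _)
        _ ≤ C * ((cn t : ℝ) * cn (N - t)) := h2
        _ ≤ _ := mul_le_mul_of_nonneg_left h5 hC0.le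
    calc (({ω | SW N ω ∧ a * r + b ≤ TW w N t ω} :
        Set (Fin (N + 1) → ℤ × ℤ)).ncard : ℝ)
        = Real.exp (-(r : ℝ)) * (Real.exp r * (({ω | SW N ω ∧ a * r + b ≤ TW w N t ω} :
          Set (Fin (N + 1) → ℤ × ℤ)).ncard : ℝ)) := by
          rw [← mul_assoc, ← Real.exp_add, neg_add_cancel, Real.exp_zero, one_mul]
      _ ≤ _ := mul_le_mul_of_nonneg_left h7 (Real.exp_pos _).le
  have hMM := MM_pos (b := b) (C := C) ha
  have hsub : ({ω | SW N ω ∧ ∃ t, (6 * E + 2 * K + 1) * MM a b C * (L ^ p + x) < TW w N t ω} :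
      Set (Fin (N + 1) → ℤ × ℤ)) ⊆
      ((Finset.range (N + 1)).biUnion (fun t =>
        ((SW_finite N).subset (fun ω (hω : ω ∈ ({ω | SW N ω ∧ a * r + b ≤ TW w N t ω} :
          Set (Fin (N + 1) → ℤ × ℤ))) => hω.1)).toFinset) :
        Finset (Fin (N + 1) → ℤ × ℤ)) := by
    rintro ω ⟨h1, t, ht⟩
    rw [Finset.mem_coe, Finset.mem_biUnion]
    have htN : t ≤ N := by
      by_contra hcon
      rw [TW_zero (by omega) ω, Nat.cast_zero] at ht
      have : 0 ≤ (6 * E + 2 * K + 1) * MM a b C * (L ^ p + x) := by positivity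
      linarith
    refine ⟨t, Finset.mem_range.2 (by omega), ?_⟩
    rw [Set.Finite.mem_toFinset]
    refine ⟨h1, ?_⟩
    have h2 : ((a * r + b : ℕ) : ℝ) ≤ (TW w N t ω : ℝ) := by
      push_cast
      exact hthr.trans ht.le
    exact_mod_cast h2
  have hle : (({ω | SW N ω ∧ ∃ t, (6 * E + 2 * K + 1) * MM a b C * (L ^ p + x) < TW w N t ω} :
      Set (Fin (N + 1) → ℤ × ℤ)).ncard : ℝ) ≤ ∑ t ∈ Finset.range (N + 1),
      (({ω | SW N ω ∧ a * r + b ≤ TW w N t ω} :
        Set (Fin (N + 1) → ℤ × ℤ)).ncard : ℝ) := by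
    have h1 := (Set.ncard_le_ncard hsub (Finset.finite_toSet _))
    rw [Set.ncard_coe_finset] at h1
    have h2 := h1.trans Finset.card_biUnion_le
    have h3 : ∀ t ∈ Finset.range (N + 1), (((SW_finite N).subset (fun ω
        (hω : ω ∈ ({ω | SW N ω ∧ a * r + b ≤ TW w N t ω} :
          Set (Fin (N + 1) → ℤ × ℤ))) => hω.1)).toFinset).card =
        ({ω | SW N ω ∧ a * r + b ≤ TW w N t ω} :
        Set (Fin (N + 1) → ℤ × ℤ)).ncard := by
      intro t _
      exact (Set.ncard_eq_toFinset_card _ _).symm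
    rw [Finset.sum_congr rfl h3] at h2
    exact_mod_cast h2
  refine hle.trans ((Finset.sum_le_sum hone).trans ?_)
  rw [Finset.sum_const, Finset.card_range, nsmul_eq_mul]
  push_cast
  have h8 : Real.exp (-(r : ℝ)) ≤ Real.exp (-y) := Real.exp_le_exp.2 (by linarith)
  have h9 : Real.exp (-y) = Real.exp (-x) * (C * ((N : ℝ) + 1))⁻¹ *
      Real.exp (-(2 * (K * L ^ p))) := by
    rw [hy, neg_add, neg_add, Real.exp_add, Real.exp_add, Real.exp_neg (Real.log _),
      Real.exp_log (by positivity)]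
  have hcn := cn_pos N
  calc ((N : ℝ) + 1) * (Real.exp (-(r : ℝ)) * (C * (Real.exp (2 * (K * L ^ p)) * cn N)))
      ≤ ((N : ℝ) + 1) * (Real.exp (-y) * (C * (Real.exp (2 * (K * L ^ p)) * cn N))) := by
        gcongr
    _ = Real.exp (-x) * (Real.exp (-(2 * (K * L ^ p))) * Real.exp (2 * (K * L ^ p))) *
        ((C * ((N : ℝ) + 1))⁻¹ * (C * ((N : ℝ) + 1))) * cn N := by
        rw [h9]; ring
    _ = Real.exp (-x) * cn N := by
        rw [← Real.exp_add, neg_add_cancel, Real.exp_zero, inv_mul_cancel₀ (by positivity),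
          mul_one, mul_one]

/-- exponential moment of the number of close pairs across the middle -/
theorem exp_momentW {w a b C : ℕ} (h : Cnt w a b C) (s : ℕ) :
    ∑ v ∈ W (2 * s), (2 : ℝ) ^ ((TW w (2 * s) s v - b) / a) ≤ (2 * C + 1) * (cn s : ℝ) ^ 2 := by
  obtain ⟨ha, hC1, hcnt⟩ := h
  set R := (2 * s + 1) * (2 * s + 1) + 1 with hR
  have hTT : ∀ v : Fin (2 * s + 1) → ℤ × ℤ, TW w (2 * s) s v < R := by
    intro v
    have := TW_le_sq w (2 * s) s v
    omega
  have h1 : ∀ v ∈ W (2 * s), (2 : ℝ) ^ ((TW w (2 * s) s v - b) / a) ≤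
      (∑ r ∈ Finset.range R, if a * r + b ≤ TW w (2 * s) s v then (2 : ℝ) ^ r else 0)
        + 1 := by
    intro v _
    set x := TW w (2 * s) s v with hx
    have hxR := hTT v
    rw [← hx] at hxR
    have hnn : ∀ r ∈ Finset.range R, (0 : ℝ) ≤
        if a * r + b ≤ x then (2 : ℝ) ^ r else 0 := by
      intro r _
      split_ifs
      · positivity
      · exact le_rfl
    rcases Nat.lt_or_ge x b with h2 | h2
    · rw [Nat.sub_eq_zero_of_le h2.le, Nat.zero_div, pow_zero]
      have := Finset.sum_nonneg hnn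
      linarith
    · set r := (x - b) / a with hr
      have h3 : a * r + b ≤ x := by
        have := Nat.mul_div_le (x - b) a
        rw [← hr] at this
        omega
      have h4 : r ∈ Finset.range R := by
        rw [Finset.mem_range]
        have : r ≤ x - b := Nat.div_le_self _ _
        omega
      have h5 := Finset.single_le_sum hnn h4
      rw [if_pos h3] at h5
      linarith
  refine (Finset.sum_le_sum h1).trans ?_
  rw [Finset.sum_add_distrib, Finset.sum_comm]
  simp only [Finset.sum_const, nsmul_eq_mul, mul_one]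
  rw [card_W]
  have h2 : ∀ r ∈ Finset.range R, ∑ v ∈ W (2 * s),
      (if a * r + b ≤ TW w (2 * s) s v then (2 : ℝ) ^ r else 0) ≤
      C * (cn s : ℝ) ^ 2 * (1 / 2) ^ r := by
    intro r _
    rw [← Finset.sum_filter, Finset.sum_const, nsmul_eq_mul, card_filter_W]
    have h3 := hcnt (2 * s) s r (by omega)
    rw [show 2 * s - s = s by omega] at h3
    have h4 : (4 : ℝ) ^ r * (({ω | SW (2 * s) ω ∧ a * r + b ≤ TW w (2 * s) s ω} :
      Set (Fin (2 * s + 1) → ℤ × ℤ)).ncard : ℝ) ≤ C * ((cn s : ℝ) * cn s) := by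
      exact_mod_cast h3
    set X := (({ω | SW (2 * s) ω ∧ a * r + b ≤ TW w (2 * s) s ω} :
      Set (Fin (2 * s + 1) → ℤ × ℤ)).ncard : ℝ) with hX
    have e : (4 : ℝ) ^ r = 2 ^ r * 2 ^ r := by rw [← mul_pow]; norm_num
    have h5 : X * 2 ^ r = (4 ^ r * X) * (1 / 2) ^ r := by
      rw [e]
      have : (2 : ℝ) ^ r * (1 / 2) ^ r = 1 := by rw [← mul_pow]; norm_num
      calc X * 2 ^ r = 2 ^ r * X * 1 := by ring
        _ = 2 ^ r * X * ((2 : ℝ) ^ r * (1 / 2) ^ r) := by rw [this]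
        _ = _ := by ring
    rw [h5]
    have h6 : (4 : ℝ) ^ r * X ≤ C * (cn s : ℝ) ^ 2 := by
      rw [sq]; exact h4
    exact mul_le_mul_of_nonneg_right h6 (by positivity)
  have h3 := Finset.sum_le_sum h2
  rw [← Finset.mul_sum] at h3
  have h4 : ∑ r ∈ Finset.range R, (1 / 2 : ℝ) ^ r ≤ 2 := by
    have := geom_sum_eq (show (1 / 2 : ℝ) ≠ 1 by norm_num) R
    rw [this]
    have h5 : (0 : ℝ) ≤ (1 / 2) ^ R := by positivity
    have e : ((1 / 2 : ℝ) ^ R - 1) / (1 / 2 - 1) = 2 - 2 * (1 / 2) ^ R := by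
      field_simp
      ring
    rw [e]
    linarith
  have h5 : C * (cn s : ℝ) ^ 2 * ∑ r ∈ Finset.range R, (1 / 2 : ℝ) ^ r ≤
      C * (cn s : ℝ) ^ 2 * 2 := mul_le_mul_of_nonneg_left h4 (by positivity)
  have h6 : (cn (2 * s) : ℝ) ≤ (cn s : ℝ) ^ 2 := by
    have := cn_add_le s s
    rw [show s + s = 2 * s by ring] at this
    rw [sq]
    exact this
  linarith

/-- close pairs across the middle of the windows -/
theorem window_w {p : ℕ} (hp : 1 ≤ p) (hcu : CU p) : ∃ K : ℝ, 0 ≤ K ∧ ∀ w a b C : ℕ,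
    Cnt w a b C → ∀ s n : ℕ, 2 ≤ s → 2 * s ≤ n →
    ∑ i ∈ Finset.range (n + 1 - 2 * s), ∑ ω ∈ W n, (TW w (2 * s) s (pc i (2 * s) ω) : ℝ) ≤
      cn n * (K * MM a b C * n * Real.log s ^ p) := by
  obtain ⟨K, hK, h⟩ := avg2 hcu
  obtain ⟨K', hK', hu⟩ := hcu
  have hcP := one_le_cP p
  refine ⟨5 * (3 / 2) ^ p + 3 * K' + 3 * (K * cP p), by positivity,
    fun w a b C hC s n hs hn => ?_⟩
  have hmom := exp_momentW hC s
  obtain ⟨ha, hC1, -⟩ := hC
  have hL1 := log_ge hs
  have hone1 := one_le_LP p hs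
  have hLP0 := LP_nonneg p s
  set E : ℝ := (3 / 2) ^ p with hE
  have hE0 : 0 < E := by positivity
  set l := Real.log C with hl
  have hl0 : 0 ≤ l := Real.log_natCast_nonneg C
  have hC0 : (0 : ℝ) < C := by exact_mod_cast hC1
  have hC1' : (1 : ℝ) ≤ C := by exact_mod_cast hC1
  have ha' : (1 : ℝ) ≤ a := by exact_mod_cast ha
  have hb' : (0 : ℝ) ≤ b := Nat.cast_nonneg b
  have hs' : (2 : ℝ) ≤ s := by exact_mod_cast hs
  have hmu := mu_pos
  have hcn : (0 : ℝ) < cn n := lt_of_lt_of_le one_pos (cn_pos n)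
  have hc2 : (0 : ℝ) < cn s := lt_of_lt_of_le one_pos (cn_pos _)
  have hL4 : Real.log ((2 * s : ℕ) : ℝ) ^ p ≤ 2 * cP p * Real.log s ^ p := by
    have := log_mul_pow_le' hp (m := s) (j := 2) hs (by norm_num)
    push_cast at this ⊢
    linarith
  have hlogc : Real.log (cn s) ≤ s * Real.log H981.mu + K' * Real.log s ^ p := by
    have h4 := Real.log_le_log hc2 (hu s hs s le_rfl)
    rw [Real.log_mul (by positivity) (Real.exp_pos _).ne', Real.log_exp, Real.log_pow] at h4
    exact h4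
  have h3 := h (2 * s) n (by omega) hn
    (fun _ v => (2 : ℝ) ^ ((TW w (2 * s) s v - b) / a))
    (fun i v => by positivity) (fun i hi ω hω => by positivity)
    (1.2 + l + 2 * K' * Real.log s ^ p) (by positivity) (by
      intro i hi
      have h5 : 0 < ∑ v ∈ W (2 * s), (2 : ℝ) ^ ((TW w (2 * s) s v - b) / a) :=
        Finset.sum_pos (fun v _ => by positivity) (W_nonempty _)
      have h6 := Real.log_le_log h5 hmom
      rw [Real.log_mul (by positivity) (by positivity), Real.log_pow] at h6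
      have h7 : Real.log (2 * C + 1) ≤ 1.2 + l := by
        have h8 : (1.2 : ℝ) + l = Real.log (Real.exp 1.2 * C) := by
          rw [Real.log_mul (Real.exp_pos _).ne' hC0.ne', Real.log_exp]
        rw [h8]
        refine Real.log_le_log (by positivity) ?_
        have h9 : (3 : ℝ) ≤ Real.exp 1.2 := by
          have h10 := Real.quadratic_le_exp_of_nonneg (show (0 : ℝ) ≤ 0.2 by norm_num)
          have h11 : Real.exp 1.2 = Real.exp 1 * Real.exp 0.2 := by
            rw [← Real.exp_add]; norm_num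
          have h12 := Real.exp_one_gt_d9
          rw [h11]
          nlinarith
        nlinarith
      have e4 : ((2 * s : ℕ) : ℝ) * Real.log H981.mu =
          2 * (s * Real.log H981.mu) := by
        push_cast; ring
      have e2 : (((2 : ℕ)) : ℝ) = 2 := by norm_num
      rw [e2] at h6
      rw [e4]
      linarith)
  set X := fun i ω => (TW w (2 * s) s (pc (n := n) i (2 * s) ω) - b) / a with hX
  have h8 : ∀ i ω, (TW w (2 * s) s (pc (n := n) i (2 * s) ω) : ℝ) ≤
      a / Real.log 2 * Real.log ((2 : ℝ) ^ X i ω) + (a + b) := by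
    intro i ω
    rw [Real.log_pow]
    have hl2 := log_two_bd.1
    have e : a / Real.log 2 * (X i ω * Real.log 2) = a * (X i ω : ℝ) := by
      field_simp
    rw [e]
    have h9 : TW w (2 * s) s (pc (n := n) i (2 * s) ω) ≤ a * X i ω + (a + b) := by
      rw [hX]
      simp only
      set y := TW w (2 * s) s (pc (n := n) i (2 * s) ω)
      have := Nat.lt_mul_div_succ (y - b) (show 0 < a by omega)
      rw [mul_add, mul_one] at this
      omega
    exact_mod_cast h9
  have h11 : ∑ i ∈ Finset.range (n + 1 - 2 * s), ∑ ω ∈ W n,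
        (TW w (2 * s) s (pc i (2 * s) ω) : ℝ) ≤
      a / Real.log 2 * ∑ i ∈ Finset.range (n + 1 - 2 * s), ∑ ω ∈ W n,
        Real.log ((2 : ℝ) ^ X i ω) + n * (cn n * (a + b)) := by
    calc _ ≤ ∑ i ∈ Finset.range (n + 1 - 2 * s), ∑ ω ∈ W n,
          (a / Real.log 2 * Real.log ((2 : ℝ) ^ X i ω) + ((a : ℝ) + b)) :=
          Finset.sum_le_sum (fun i _ => Finset.sum_le_sum (fun ω _ => h8 i ω))
      _ = a / Real.log 2 * ∑ i ∈ Finset.range (n + 1 - 2 * s), ∑ ω ∈ W n,
        Real.log ((2 : ℝ) ^ X i ω) + ((n + 1 - 2 * s : ℕ) : ℝ) * (cn n * ((a : ℝ) + b)) := by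
          simp only [Finset.sum_add_distrib, ← Finset.mul_sum, Finset.sum_const, nsmul_eq_mul,
            Finset.card_range, card_W]
          ring
      _ ≤ _ := by
          have : (((n + 1 - 2 * s : ℕ)) : ℝ) ≤ n := by
            exact_mod_cast (show n + 1 - 2 * s ≤ n by omega)
          gcongr
  refine h11.trans ?_
  have h13 : a / Real.log 2 * ∑ i ∈ Finset.range (n + 1 - 2 * s), ∑ ω ∈ W n,
        Real.log ((2 : ℝ) ^ X i ω) ≤ a / Real.log 2 * (cn n * (n * (1.2 + l + 2 * K' *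
        Real.log s ^ p + K * Real.log ((2 * s : ℕ) : ℝ) ^ p))) := by
    have hl2 := log_two_bd.1
    exact mul_le_mul_of_nonneg_left h3 (by positivity)
  refine (add_le_add_left h13 _).trans ?_
  have h14 : a / Real.log 2 ≤ (a : ℝ) * 1.5 := by
    have hl2 := log_two_bd.1
    rw [div_le_iff₀ (by linarith)]
    nlinarith
  have h15 : 1.2 + l + 2 * K' * Real.log s ^ p + K * Real.log ((2 * s : ℕ) : ℝ) ^ p ≤
      (1 + l) * ((1.2 * E + 2 * K' + 2 * (K * cP p)) * Real.log s ^ p) := by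
    have e2 := mul_le_mul_of_nonneg_left hL4 hK
    have e5 : (1 + l) * ((1.2 * E + 2 * K' + 2 * (K * cP p)) * Real.log s ^ p) =
        1.2 * (E * Real.log s ^ p) + 2 * K' * Real.log s ^ p +
        K * (2 * cP p * Real.log s ^ p) + l * (1.2 * (E * Real.log s ^ p)) +
        l * ((2 * K' + 2 * (K * cP p)) * Real.log s ^ p) := by ring
    rw [e5]
    have e6 : l ≤ l * (1.2 * (E * Real.log s ^ p)) := by nlinarith
    have e7 : 0 ≤ l * ((2 * K' + 2 * (K * cP p)) * Real.log s ^ p) := by positivity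
    linarith
  have h16 : (0 : ℝ) ≤ Real.log ((2 * s : ℕ) : ℝ) := Real.log_natCast_nonneg _
  calc a / Real.log 2 * (cn n * (n * (1.2 + l + 2 * K' *
        Real.log s ^ p + K * Real.log ((2 * s : ℕ) : ℝ) ^ p))) +
        n * (cn n * ((a : ℝ) + b))
      ≤ a * 1.5 * (cn n * (n * ((1 + l) * ((1.2 * E + 2 * K' + 2 * (K * cP p)) *
          Real.log s ^ p)))) +
        n * (cn n * (((a : ℝ) + b) * ((1 + l) * (E * Real.log s ^ p)))) := by
        refine add_le_add ?_ ?_
        · gcongr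
        · refine mul_le_mul_of_nonneg_left ?_ (Nat.cast_nonneg _)
          refine mul_le_mul_of_nonneg_left ?_ hcn.le
          have e8 : (1 : ℝ) ≤ (1 + l) * (E * Real.log s ^ p) := by nlinarith
          nlinarith
    _ ≤ ((a : ℝ) + b) * 1.5 * (cn n * (n * ((1 + l) * ((1.2 * E + 2 * K' + 2 * (K * cP p)) *
          Real.log s ^ p)))) +
        n * (cn n * (((a : ℝ) + b) * ((1 + l) * (E * Real.log s ^ p)))) := by
        refine add_le_add ?_ le_rfl
        refine mul_le_mul_of_nonneg_right ?_ (by positivity)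
        linarith
    _ = (2.8 * E + 3 * K' + 3 * (K * cP p)) * (MM a b C * (cn n * n * Real.log s ^ p)) := by
        unfold MM
        ring
    _ ≤ (5 * E + 3 * K' + 3 * (K * cP p)) * (MM a b C * (cn n * n * Real.log s ^ p)) := by
        have h17 := MM_pos (b := b) (C := C) ha
        refine mul_le_mul_of_nonneg_right ?_ (by positivity)
        linarith
    _ = _ := by ring

end Run7.h738.ND
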