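import Pool.Agent.Run7.h738.ND.Mean

/-! # Close pairs of points with lag more than `m`, uniformly in the length of the walk -/

set_option autoImplicit false

namespace Run7.h738.ND

open scoped Classical
open Pool.Agent.W840.CT hiding tail_all
open Pool.Agent.TH546.SAW hiding avg avg2 entropy variational transfer window_mean max_mean
  loop_mean far_mean
open Pool.Agent.TH546.SG

/-- close pairs with lag at most `M` -/
noncomputable def CPw (w n M : ℕ) (ω : Fin (n + 1) → ℤ × ℤ) :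
    Finset (Fin (n + 1) × Fin (n + 1)) :=
  (Finset.univ : Finset (Fin (n + 1) × Fin (n + 1))).filter
    (fun q => q.1.1 + 1 < q.2.1 ∧ q.2.1 ≤ q.1.1 + M ∧ D (ω q.1) (ω q.2) ≤ w)

/-- the total lag of the close pairs with lag at most `M` -/
noncomputable def LLw (w n M : ℕ) (ω : Fin (n + 1) → ℤ × ℤ) : ℕ :=
  ∑ q ∈ CPw w n M ω, (q.2.1 - q.1.1)

/-- close pairs with lag at most `M` across time `t` -/
noncomputable def TMw (w n M t : ℕ) (ω : Fin (n + 1) → ℤ × ℤ) : ℕ :=
  ((CPw w n M ω).filter (fun q => q.1.1 < t ∧ t < q.2.1)).card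

/-- close pairs with lag more than `m` -/
noncomputable def FFw (w n m : ℕ) (ω : Fin (n + 1) → ℤ × ℤ) : ℕ :=
  ((Finset.univ : Finset (Fin (n + 1) × Fin (n + 1))).filter
    (fun q => q.1.1 + m < q.2.1 ∧ D (ω q.1) (ω q.2) ≤ w)).card

theorem LLw_le (w n M : ℕ) (ω : Fin (n + 1) → ℤ × ℤ) :
    LLw w n M ω ≤ 2 * ∑ t ∈ Finset.range n, TMw w n M t ω := by
  have h3 : ∑ q ∈ CPw w n M ω, ((Finset.range n).filter (fun t => q.1.1 < t ∧ t < q.2.1)).card =
      ∑ t ∈ Finset.range n, TMw w n M t ω := by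
    unfold TMw
    simp only [Finset.card_filter]
    exact Finset.sum_comm
  rw [← h3, Finset.mul_sum]
  unfold LLw
  refine Finset.sum_le_sum (fun q hq => ?_)
  obtain ⟨i, j⟩ := q
  have hj := j.2
  simp only [CPw, Finset.mem_filter, Finset.mem_univ, true_and] at hq ⊢
  obtain ⟨a1, a2, a3⟩ := hq
  have h4 : j.1 - i.1 - 1 ≤ ((Finset.range n).filter (fun t => i.1 < t ∧ t < j.1)).card := by
    calc j.1 - i.1 - 1 = (Finset.Ioo i.1 j.1).card := (Nat.card_Ioo _ _).symm
      _ ≤ _ := by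
          refine Finset.card_le_card ?_
          intro t ht
          rw [Finset.mem_Ioo] at ht
          rw [Finset.mem_filter, Finset.mem_range]
          omega
  omega

theorem TMw_le_TW (w n M t : ℕ) (ω : Fin (n + 1) → ℤ × ℤ) : TMw w n M t ω ≤ TW w n t ω := by
  unfold TMw TW CPw
  refine Finset.card_le_card ?_
  intro q hq
  simp only [Finset.mem_filter, Finset.mem_univ, true_and] at hq ⊢
  exact ⟨hq.2.1, hq.2.2, hq.1.2.2⟩

theorem TMw_le_window {w n M i : ℕ} {ω : Fin (n + 1) → ℤ × ℤ} (hi : i + 2 * M ≤ n) :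
    TMw w n M (i + M) ω ≤ TW w (2 * M) M (pc i (2 * M) ω) := by
  unfold TMw TW
  refine Finset.card_le_card_of_injOn (fun q =>
    ((⟨min (q.1.1 - i) (2 * M), by omega⟩ : Fin (2 * M + 1)),
     (⟨min (q.2.1 - i) (2 * M), by omega⟩ : Fin (2 * M + 1)))) ?_ ?_
  · rintro ⟨a, b⟩ hq
    simp only [CPw, Finset.coe_filter, Finset.mem_filter, Finset.mem_univ, true_and,
      Set.mem_ofPred_eq] at hq ⊢
    obtain ⟨⟨a1, a2, a3⟩, a4, a5⟩ := hq
    have e1 : min (a.1 - i) (2 * M) = a.1 - i := by omega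
    have e2 : min (b.1 - i) (2 * M) = b.1 - i := by omega
    refine ⟨by omega, by omega, ?_⟩
    unfold pc
    simp only [e1, e2]
    rw [D_sub, show i + (a.1 - i) = a.1 by omega, show i + (b.1 - i) = b.1 by omega,
      ex_val, ex_val]
    exact a3
  · rintro ⟨a, b⟩ hq ⟨a', b'⟩ hq' h
    simp only [CPw, Finset.coe_filter, Finset.mem_filter, Finset.mem_univ, true_and,
      Set.mem_ofPred_eq] at hq hq'
    simp only [Prod.mk.injEq, Fin.mk.injEq] at h ⊢
    constructor
    · apply Fin.ext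
      omega
    · apply Fin.ext
      omega

/-- all the times: windows inside, and the times close to the two ends -/
theorem sum_TMw_le {w n M : ℕ} {ω : Fin (n + 1) → ℤ × ℤ} {J : ℝ}
    (h : ∀ t, (TW w n t ω : ℝ) ≤ J) (hM : 2 * M ≤ n) :
    (∑ t ∈ Finset.range n, (TMw w n M t ω : ℝ)) ≤
      ∑ i ∈ Finset.range (n + 1 - 2 * M), (TW w (2 * M) M (pc i (2 * M) ω) : ℝ) + 2 * M * J := by
  have hJ : 0 ≤ J := (Nat.cast_nonneg _).trans (h 0)
  have hTM : ∀ t, (TMw w n M t ω : ℝ) ≤ J := fun t =>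
    (Nat.cast_le.2 (TMw_le_TW w n M t ω)).trans (h t)
  have h1 : ∑ t ∈ Finset.range n, (TMw w n M t ω : ℝ) ≤
      ∑ t ∈ Finset.range (M + ((n + 1 - 2 * M) + M)), (TMw w n M t ω : ℝ) := by
    refine Finset.sum_le_sum_of_subset_of_nonneg ?_ (fun _ _ _ => Nat.cast_nonneg _)
    intro t ht
    rw [Finset.mem_range] at ht ⊢
    omega
  refine h1.trans ?_
  rw [Finset.sum_range_add, Finset.sum_range_add]
  have h2 : ∑ t ∈ Finset.range M, (TMw w n M t ω : ℝ) ≤ M * J := by
    have := Finset.sum_le_sum (s := Finset.range M) (fun t _ => hTM t)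
    rwa [Finset.sum_const, Finset.card_range, nsmul_eq_mul] at this
  have h3 : ∑ t ∈ Finset.range M, (TMw w n M (M + (n + 1 - 2 * M + t)) ω : ℝ) ≤ M * J := by
    have := Finset.sum_le_sum (s := Finset.range M)
      (fun t _ => hTM (M + (n + 1 - 2 * M + t)))
    rwa [Finset.sum_const, Finset.card_range, nsmul_eq_mul] at this
  have h4 : ∑ i ∈ Finset.range (n + 1 - 2 * M), (TMw w n M (M + i) ω : ℝ) ≤
      ∑ i ∈ Finset.range (n + 1 - 2 * M), (TW w (2 * M) M (pc i (2 * M) ω) : ℝ) := by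
    refine Finset.sum_le_sum (fun i hi => ?_)
    rw [Finset.mem_range] at hi
    rw [add_comm M i]
    exact_mod_cast TMw_le_window (by omega)
  linarith

/-- the maximal number of close pairs across a time -/
theorem max_w {p : ℕ} (hp : 1 ≤ p) (hcu : CU p) : ∃ K : ℝ, 0 ≤ K ∧ ∀ w a b C : ℕ,
    Cnt w a b C → ∀ n : ℕ, 2 ≤ n →
    ∃ J : (Fin (n + 1) → ℤ × ℤ) → ℝ, (∀ ω t, (TW w n t ω : ℝ) ≤ J ω) ∧
    ∑ ω ∈ W n, J ω ≤ cn n * (K * MM a b C * Real.log n ^ p) := by
  obtain ⟨K, hK, h⟩ := tail_w hp hcu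
  refine ⟨K + (3 * K + 3) * (3 / 2) ^ p, by positivity, fun w a b C hC n hn => ?_⟩
  have hMp := MM_pos (b := b) (C := C) hC.1
  have hM1 : 1 ≤ MM a b C := by
    have h1 : (0 : ℝ) ≤ Real.log C := Real.log_natCast_nonneg C
    have h2 : (1 : ℝ) ≤ a := by exact_mod_cast hC.1
    have h3 : (0 : ℝ) ≤ b := Nat.cast_nonneg b
    unfold MM
    nlinarith
  have h1 := log_ge hn
  have hone1 := one_le_LP p hn
  have hn' : (2 : ℝ) ≤ n := by exact_mod_cast hn
  set L := Real.log n with hL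
  set E : ℝ := (3 / 2) ^ p with hE
  set m := MM a b C with hm
  have hLL : L ≤ E * L ^ p := by
    rw [hE, ← mul_pow]
    have h1 : (1 : ℝ) ≤ 3 / 2 * L := by linarith
    calc L ≤ 3 / 2 * L := by linarith
      _ = (3 / 2 * L) ^ 1 := (pow_one _).symm
      _ ≤ (3 / 2 * L) ^ p := pow_le_pow_right₀ h1 hp
  set B := K * m * (L ^ p + 3 * L) with hB
  have hB0 : 0 ≤ B := by positivity
  refine ⟨fun ω => if (∃ t, B < TW w n t ω) then ((n : ℝ) + 1) * (n + 1) else B, ?_, ?_⟩
  · intro ω t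
    show (TW w n t ω : ℝ) ≤ if (∃ t, B < TW w n t ω) then ((n : ℝ) + 1) * (n + 1) else B
    split_ifs with h3
    · exact_mod_cast TW_le_sq w n t ω
    · push Not at h3
      exact h3 t
  · have h3 := h w a b C hC n hn (3 * L) (by positivity)
    rw [← card_filter_W] at h3
    calc ∑ ω ∈ W n, (if (∃ t, B < TW w n t ω) then ((n : ℝ) + 1) * (n + 1) else B)
        ≤ ∑ ω ∈ W n, ((if (∃ t, B < TW w n t ω) then ((n : ℝ) + 1) * (n + 1) else 0) + B) := by
          refine Finset.sum_le_sum (fun ω _ => ?_)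
          split_ifs
          · linarith
          · linarith
      _ = (((W n).filter (fun ω => ∃ t, B < TW w n t ω)).card : ℝ) * (((n : ℝ) + 1) * (n + 1)) +
          cn n * B := by
          rw [Finset.sum_add_distrib, ← Finset.sum_filter]
          simp only [Finset.sum_const, nsmul_eq_mul]
          rw [card_W]
      _ ≤ (Real.exp (-(3 * L)) * cn n) * (((n : ℝ) + 1) * (n + 1)) + cn n * B := by
          gcongr
      _ = cn n * (Real.exp (-(3 * L)) * (((n : ℝ) + 1) * (n + 1)) + B) := by ring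
      _ ≤ cn n * ((K + (3 * K + 3) * E) * m * L ^ p) := by
          refine mul_le_mul_of_nonneg_left ?_ (Nat.cast_nonneg _)
          have h4 : Real.exp (-(3 * L)) * (((n : ℝ) + 1) * (n + 1)) ≤ 3 := by
            have h5 : Real.exp (3 * L) = (n : ℝ) ^ 3 := by
              rw [show 3 * L = L + L + L by ring, Real.exp_add, Real.exp_add, hL,
                Real.exp_log (by linarith)]
              ring
            rw [Real.exp_neg, h5, inv_mul_le_iff₀ (by positivity)]
            have h6 : ((n : ℝ) + 1) * (n + 1) ≤ 3 * (n : ℝ) ^ 2 := by nlinarith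
            have h7 : (n : ℝ) ^ 2 * 1 ≤ (n : ℝ) ^ 2 * n :=
              mul_le_mul_of_nonneg_left (by linarith) (by positivity)
            have h8 : (n : ℝ) ^ 3 = (n : ℝ) ^ 2 * n := by ring
            linarith
          have h6 : K * m * L ≤ K * m * (E * L ^ p) := mul_le_mul_of_nonneg_left hLL (by positivity)
          have h8 : (3 : ℝ) ≤ 3 * (m * (E * L ^ p)) := by nlinarith
          have h7 : (K + (3 * K + 3) * E) * m * L ^ p = K * m * L ^ p + 3 * (K * m * (E * L ^ p)) +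
            3 * (m * (E * L ^ p)) := by ring
          rw [hB, h7]
          linarith

/-- the mean of the total lag of the close pairs with lag at most `M` -/
theorem loop_w {p : ℕ} (hp : 1 ≤ p) (hcu : CU p) : ∃ K : ℝ, 0 ≤ K ∧ ∀ w a b C : ℕ,
    Cnt w a b C → ∀ M n : ℕ, 2 ≤ M → 2 ≤ n →
    ∑ ω ∈ W n, (LLw w n M ω : ℝ) ≤ cn n * (K * MM a b C * n * Real.log M ^ p) := by
  obtain ⟨K, hK, hwin⟩ := window_w hp hcu
  obtain ⟨K', hK', hmax⟩ := max_w hp hcu
  have hcP := one_le_cP p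
  refine ⟨2 * K + (4 * cP p + 2 * 2 ^ p) * K', by positivity, fun w a b C hC M n hM hn => ?_⟩
  obtain ⟨J, hJ, hJs⟩ := hmax w a b C hC n hn
  have hMp := MM_pos (b := b) (C := C) hC.1
  have hL1 := log_ge hM
  have hLP0 := LP_nonneg p M
  have h2p : (0 : ℝ) < 2 ^ p := by positivity
  have hM' : (2 : ℝ) ≤ M := by exact_mod_cast hM
  set μ := MM a b C with hμ
  have hLL : ∀ ω, (LLw w n M ω : ℝ) ≤ 2 * ∑ t ∈ Finset.range n, (TMw w n M t ω : ℝ) := by
    intro ω
    exact_mod_cast LLw_le w n M ω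
  rcases Nat.lt_or_ge n (2 * M) with h | h
  · have h1 : ∀ ω ∈ W n, (LLw w n M ω : ℝ) ≤ 2 * (n * J ω) := by
      intro ω _
      refine (hLL ω).trans (mul_le_mul_of_nonneg_left ?_ (by norm_num))
      have h2 := Finset.sum_le_sum (s := Finset.range n)
        (fun t _ => (Nat.cast_le.2 (TMw_le_TW w n M t ω)).trans (hJ ω t))
      rwa [Finset.sum_const, Finset.card_range, nsmul_eq_mul] at h2
    have hlog : Real.log n ^ p ≤ 2 ^ p * Real.log M ^ p := by
      have h3 : Real.log n ≤ 2 * Real.log M := by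
        calc Real.log n ≤ Real.log (M * M) := by
              refine Real.log_le_log (by positivity) ?_
              have : (n : ℝ) ≤ 2 * M := by exact_mod_cast h.le
              nlinarith
          _ = 2 * Real.log M := by rw [Real.log_mul (by positivity) (by positivity)]; ring
      calc Real.log n ^ p ≤ (2 * Real.log M) ^ p :=
            pow_le_pow_left₀ (Real.log_natCast_nonneg _) h3 p
        _ = _ := by rw [mul_pow]
    calc ∑ ω ∈ W n, (LLw w n M ω : ℝ) ≤ ∑ ω ∈ W n, 2 * (n * J ω) := Finset.sum_le_sum h1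
      _ = 2 * n * ∑ ω ∈ W n, J ω := by rw [Finset.mul_sum]; congr 1; ext ω; ring
      _ ≤ 2 * n * (cn n * (K' * μ * Real.log n ^ p)) := by gcongr
      _ ≤ 2 * n * (cn n * (K' * μ * (2 ^ p * Real.log M ^ p))) := by gcongr
      _ = cn n * ((2 * 2 ^ p * K') * (μ * n * Real.log M ^ p)) := by ring
      _ ≤ cn n * ((2 * K + (4 * cP p + 2 * 2 ^ p) * K') * (μ * n * Real.log M ^ p)) := by
          refine mul_le_mul_of_nonneg_left ?_ (Nat.cast_nonneg _)
          refine mul_le_mul_of_nonneg_right ?_ (by positivity)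
          have e1 : 0 ≤ cP p * K' := by positivity
          have e2 : 0 ≤ 2 ^ p * K' := by positivity
          linarith
      _ = _ := by ring
  · have hlog := log_ratio_pow hp (m := M) (n := n) hM (by omega)
    have h1 : ∀ ω ∈ W n, (LLw w n M ω : ℝ) ≤
        2 * ∑ i ∈ Finset.range (n + 1 - 2 * M), (TW w (2 * M) M (pc i (2 * M) ω) : ℝ) +
          4 * M * J ω := by
      intro ω _
      have h2 := sum_TMw_le (hJ ω) h
      have h3 := hLL ω
      linarith
    calc ∑ ω ∈ W n, (LLw w n M ω : ℝ)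
        ≤ ∑ ω ∈ W n, (2 * ∑ i ∈ Finset.range (n + 1 - 2 * M),
          (TW w (2 * M) M (pc i (2 * M) ω) : ℝ) + 4 * M * J ω) := Finset.sum_le_sum h1
      _ = 2 * ∑ i ∈ Finset.range (n + 1 - 2 * M), ∑ ω ∈ W n,
          (TW w (2 * M) M (pc i (2 * M) ω) : ℝ) + 4 * M * ∑ ω ∈ W n, J ω := by
          rw [Finset.sum_add_distrib, ← Finset.mul_sum, ← Finset.mul_sum, Finset.sum_comm]
      _ ≤ 2 * (cn n * (K * μ * n * Real.log M ^ p)) +
          4 * M * (cn n * (K' * μ * Real.log n ^ p)) := by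
          have := hwin w a b C hC M n hM h
          gcongr
      _ = cn n * (2 * K * μ * n * Real.log M ^ p + 4 * K' * μ * (M * Real.log n ^ p)) := by ring
      _ ≤ cn n * (2 * K * μ * n * Real.log M ^ p +
          4 * K' * μ * (cP p * n * Real.log M ^ p)) := by
          gcongr
      _ = cn n * ((2 * K + 4 * cP p * K') * (μ * n * Real.log M ^ p)) := by ring
      _ ≤ cn n * ((2 * K + (4 * cP p + 2 * 2 ^ p) * K') * (μ * n * Real.log M ^ p)) := by
          refine mul_le_mul_of_nonneg_left ?_ (Nat.cast_nonneg _)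
          refine mul_le_mul_of_nonneg_right ?_ (by positivity)
          have e1 : 0 ≤ cP p * K' := by positivity
          have e2 : 0 ≤ 2 ^ p * K' := by positivity
          linarith
      _ = _ := by ring

/-- close pairs with lag in `(s, 2s]` -/
theorem FFw_step (w n s : ℕ) (ω : Fin (n + 1) → ℤ × ℤ) :
    s * FFw w n s ω ≤ LLw w n (2 * s) ω + s * FFw w n (2 * s) ω := by
  unfold FFw
  set A := (Finset.univ : Finset (Fin (n + 1) × Fin (n + 1))).filter
      (fun q => q.1.1 + s < q.2.1 ∧ q.2.1 ≤ q.1.1 + 2 * s ∧ D (ω q.1) (ω q.2) ≤ w) with hA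
  have hsub : (Finset.univ : Finset (Fin (n + 1) × Fin (n + 1))).filter
      (fun q => q.1.1 + s < q.2.1 ∧ D (ω q.1) (ω q.2) ≤ w) ⊆
      A ∪ (Finset.univ : Finset (Fin (n + 1) × Fin (n + 1))).filter
      (fun q => q.1.1 + 2 * s < q.2.1 ∧ D (ω q.1) (ω q.2) ≤ w) := by
    intro q hq
    simp only [hA, Finset.mem_union, Finset.mem_filter, Finset.mem_univ, true_and] at hq ⊢
    obtain ⟨h1, h2⟩ := hq
    by_cases h3 : q.1.1 + 2 * s < q.2.1
    · exact Or.inr ⟨h3, h2⟩
    · exact Or.inl ⟨h1, by omega, h2⟩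
  have h1 := (Finset.card_le_card hsub).trans (Finset.card_union_le _ _)
  have h2 : s * A.card ≤ LLw w n (2 * s) ω := by
    unfold LLw
    calc s * A.card = ∑ q ∈ A, s := by rw [Finset.sum_const, smul_eq_mul, mul_comm]
      _ ≤ ∑ q ∈ A, (q.2.1 - q.1.1) := by
          refine Finset.sum_le_sum (fun q hq => ?_)
          simp only [hA, Finset.mem_filter, Finset.mem_univ, true_and] at hq
          omega
      _ ≤ _ := by
          rcases Nat.eq_zero_or_pos s with h0 | h0
          · have : A = ∅ := by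
              rw [hA, Finset.filter_eq_empty_iff]
              rintro q - ⟨h3, h4, -⟩
              omega
            rw [this, Finset.sum_empty]
            exact Nat.zero_le _
          · refine Finset.sum_le_sum_of_subset ?_
            intro q hq
            simp only [hA, CPw, Finset.mem_filter, Finset.mem_univ, true_and] at hq ⊢
            exact ⟨by omega, hq.2.1, hq.2.2⟩
  have h3 := Nat.mul_le_mul_left s h1
  rw [mul_add] at h3
  omega

theorem FFw_scales (w n m : ℕ) (hm : 1 ≤ m) (ω : Fin (n + 1) → ℤ × ℤ) (κ : ℕ) :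
    (FFw w n m ω : ℝ) ≤ ∑ k ∈ Finset.range κ, ((LLw w n (2 ^ (k + 1) * m) ω : ℝ) / (2 ^ k * m)) +
      FFw w n (2 ^ κ * m) ω := by
  induction κ with
  | zero => simp
  | succ κ ih =>
    rw [Finset.sum_range_succ]
    have h0 : (0 : ℝ) < 2 ^ κ * m := by
      have : (0 : ℝ) < m := by exact_mod_cast hm
      positivity
    have h1 := FFw_step w n (2 ^ κ * m) ω
    have h2 : ((2 ^ κ * m : ℕ) : ℝ) * FFw w n (2 ^ κ * m) ω ≤ LLw w n (2 * (2 ^ κ * m)) ω +
        ((2 ^ κ * m : ℕ) : ℝ) * FFw w n (2 * (2 ^ κ * m)) ω := by exact_mod_cast h1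
    have e1 : (((2 ^ κ * m : ℕ)) : ℝ) = 2 ^ κ * m := by push_cast; ring
    have e2 : 2 ^ (κ + 1) * m = 2 * (2 ^ κ * m) := by ring
    rw [e1] at h2
    rw [e2]
    have h3 : (FFw w n (2 ^ κ * m) ω : ℝ) ≤ (LLw w n (2 * (2 ^ κ * m)) ω : ℝ) / (2 ^ κ * m) +
        FFw w n (2 * (2 ^ κ * m)) ω := by
      have h4 : (FFw w n (2 ^ κ * m) ω : ℝ) - FFw w n (2 * (2 ^ κ * m)) ω ≤
          (LLw w n (2 * (2 ^ κ * m)) ω : ℝ) / (2 ^ κ * m) := by
        rw [le_div_iff₀ h0]
        linarith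
      linarith
    linarith

/-- **Uniform bound for the number of close pairs with lag more than `m`.** -/
theorem far_w {p : ℕ} (hp : 1 ≤ p) (hcu : CU p) : ∃ K : ℝ, 0 ≤ K ∧ ∀ w a b C : ℕ,
    Cnt w a b C → ∀ m n : ℕ, 2 ≤ m → 2 ≤ n →
    ∑ ω ∈ W n, (FFw w n m ω : ℝ) ≤ cn n * (K * MM a b C * (n / m) * Real.log m ^ p) := by
  obtain ⟨K, hK, hloop⟩ := loop_w hp hcu
  have hsP := sP_nonneg p
  refine ⟨2 ^ p * sP p * K, by positivity, fun w a b C hC m n hm hn => ?_⟩
  have hMp := MM_pos (b := b) (C := C) hC.1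
  set μ := MM a b C with hμ
  have hL1 := log_ge hm
  have hLP0 := LP_nonneg p m
  have hm' : (2 : ℝ) ≤ m := by exact_mod_cast hm
  have hzero : ∀ ω, FFw w n (2 ^ n * m) ω = 0 := by
    intro ω
    unfold FFw
    rw [Finset.card_eq_zero, Finset.filter_eq_empty_iff]
    rintro q - ⟨h1, -⟩
    have h2 := q.2.2
    have h3 := Nat.lt_two_pow_self (n := n)
    have h4 : 2 ^ n * 1 ≤ 2 ^ n * m := Nat.mul_le_mul_left _ (by omega)
    omega
  calc ∑ ω ∈ W n, (FFw w n m ω : ℝ)
      ≤ ∑ ω ∈ W n, ∑ k ∈ Finset.range n, ((LLw w n (2 ^ (k + 1) * m) ω : ℝ) / (2 ^ k * m)) := by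
        refine Finset.sum_le_sum (fun ω _ => ?_)
        have h1 := FFw_scales w n m (by omega) ω n
        rw [hzero, Nat.cast_zero, add_zero] at h1
        exact h1
    _ = ∑ k ∈ Finset.range n, (∑ ω ∈ W n, (LLw w n (2 ^ (k + 1) * m) ω : ℝ)) / (2 ^ k * m) := by
        rw [Finset.sum_comm]
        refine Finset.sum_congr rfl (fun k _ => ?_)
        rw [Finset.sum_div]
    _ ≤ ∑ k ∈ Finset.range n, cn n * (2 ^ p * K * μ * (n / m) * Real.log m ^ p) *
          (((k : ℝ) + 1) ^ p / 2 ^ k) := by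
        refine Finset.sum_le_sum (fun k _ => ?_)
        have hk1 : 1 ≤ 2 ^ (k + 1) := Nat.one_le_two_pow
        have h1 := hloop w a b C hC (2 ^ (k + 1) * m) n (by nlinarith) hn
        have e1 : (((2 ^ (k + 1) * m : ℕ)) : ℝ) = 2 ^ (k + 1) * m := by push_cast; ring
        have h2 : Real.log (((2 ^ (k + 1) * m : ℕ)) : ℝ) ≤ 2 * (k + 1) * Real.log m := by
          rw [e1, Real.log_mul (by positivity) (by linarith), Real.log_pow]
          have h3 : Real.log 2 ≤ Real.log m := Real.log_le_log (by norm_num) hm'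
          have h4 : ((k + 1 : ℕ) : ℝ) * Real.log 2 ≤ ((k + 1 : ℕ) : ℝ) * Real.log m :=
            mul_le_mul_of_nonneg_left h3 (Nat.cast_nonneg _)
          push_cast at h4 ⊢
          nlinarith [mul_nonneg (Nat.cast_nonneg (α := ℝ) k) (by linarith : (0 : ℝ) ≤ Real.log m)]
        have h3 : Real.log (((2 ^ (k + 1) * m : ℕ)) : ℝ) ^ p ≤ (2 * (k + 1) * Real.log m) ^ p :=
          pow_le_pow_left₀ (Real.log_natCast_nonneg _) h2 p
        have h0 : (0 : ℝ) < 2 ^ k * m := by positivity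
        rw [div_le_iff₀ h0]
        calc ∑ ω ∈ W n, (LLw w n (2 ^ (k + 1) * m) ω : ℝ)
            ≤ cn n * (K * μ * n * Real.log (((2 ^ (k + 1) * m : ℕ)) : ℝ) ^ p) := h1
          _ ≤ cn n * (K * μ * n * (2 * (k + 1) * Real.log m) ^ p) := by gcongr
          _ = _ := by
              rw [mul_pow, mul_pow]
              field_simp
    _ = cn n * (2 ^ p * K * μ * (n / m) * Real.log m ^ p) *
          ∑ k ∈ Finset.range n, (((k : ℝ) + 1) ^ p / 2 ^ k) := by rw [Finset.mul_sum]
    _ ≤ cn n * (2 ^ p * K * μ * (n / m) * Real.log m ^ p) * sP p := by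
        refine mul_le_mul_of_nonneg_left ?_ (by positivity)
        exact sum_le_sP p n
    _ = _ := by ring

end Run7.h738.ND
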