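import Pool.Agent.W840.CT.Count
import Pool.Agent.Run7.h738.ND.Loc

/-! # Simultaneous unit surgeries next to an obstacle -/

set_option autoImplicit false

namespace Run7.h738.ND

open scoped Classical
open Pool.Agent.W840.CT

/-- `p` is a point of `A` with two neighbours in `A` -/
def Two (A : Finset Pt) (p : Pt) : Prop :=
  p ∈ A ∧ ∃ p1 ∈ A, ∃ p2 ∈ A, p1 ≠ p2 ∧ adj p p1 ∧ adj p p2

/-- a place for a surgery which brings `B` from the distance `e + 1` to the distance `e` of `A` -/
structure IsE (A : Finset Pt) (B : List Pt) (e : ℕ) (s : Pt) : Prop where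
  tgt : ∃ p, Two A p ∧ D s p = e
  mn : ∀ a ∈ A, D s a ≤ e + 2 → ∀ b ∈ B, e + 1 ≤ D a b
  f0 : e + 8 ≤ D 0 s
  f1 : e + 8 ≤ D (B.getLastD 0) s
  sg : ∃ κ x L, Surg B s κ x L

/-- the places -/
noncomputable def EE (A : Finset Pt) (B : List Pt) : ℕ → Finset Pt
  | 0 => QQ A B
  | (e + 1) => (A.biUnion fun p =>
      Finset.Icc (p.1 - (e + 1 : ℕ)) (p.1 + (e + 1 : ℕ)) ×ˢ
        Finset.Icc (p.2 - (e + 1 : ℕ)) (p.2 + (e + 1 : ℕ))).filter (fun s => IsE A B (e + 1) s)

theorem mem_EE {A : Finset Pt} {B : List Pt} {e : ℕ} {s : Pt} :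
    s ∈ EE A B (e + 1) ↔ IsE A B (e + 1) s := by
  unfold EE
  rw [Finset.mem_filter]
  constructor
  · exact fun h => h.2
  · intro h
    refine ⟨?_, h⟩
    obtain ⟨p, hp, hd⟩ := h.tgt
    rw [Finset.mem_biUnion]
    refine ⟨p, hp.1, ?_⟩
    rw [Finset.mem_product, Finset.mem_Icc, Finset.mem_Icc]
    unfold D at hd
    omega

/-- the inserted points are next to the walk -/
theorem surg_near {B : List Pt} {s x : Pt} {κ : Bool × Pt} {L : List Pt}
    (h : Surg B s κ x L) (hx : Inn B x) :
    (∃ b ∈ B, D s b = 1) ∧ (κ.1 = true → ∃ b ∈ B, D (s + κ.2) b = 1) := by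
  obtain ⟨z, y, hz, hy⟩ := hx
  rcases h.sh with ⟨h0, h1 | h1⟩ | ⟨h0, h1, h2⟩
  · have hc := h.ch
    rw [h1] at hc
    simp only [List.isChain_cons_cons, List.IsChain.singleton, and_true] at hc
    refine ⟨⟨x, h.mx, adj_iff_D.1 (adj_comm hc.1)⟩, fun _ => ⟨y, hy.mem_right, ?_⟩⟩
    rw [← adj_iff_D]
    refine h.su y hy _ ?_
    rw [h1]
    simp
  · have hc := h.ch
    rw [h1] at hc
    simp only [List.isChain_cons_cons, List.IsChain.singleton, and_true] at hc
    refine ⟨⟨y, hy.mem_right, ?_⟩, fun _ => ⟨x, h.mx, adj_iff_D.1 (adj_comm hc.1)⟩⟩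
    rw [← adj_iff_D]
    refine h.su y hy _ ?_
    rw [h1]
    simp
  · refine ⟨⟨z, hz.mem_left, ?_⟩, fun h3 => by rw [h0] at h3; exact absurd h3 (by simp)⟩
    rw [← adj_iff_D]
    refine adj_comm (h.pr z hz _ ?_)
    rw [h2]
    simp

/-- the last point does not move -/
theorem fam_last {B : List Pt} {A : Finset Pt} {κ : Bool × Pt} {T : Finset Pt} (F : Fam B A κ T)
    (hfar : ∀ p ∈ T, 5 ≤ D (B.getLastD 0) p) : (nw B κ T).getLast? = B.getLast? := by
  rcases List.eq_nil_or_concat B with h | ⟨l, a, h⟩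
  · rw [h]
    rfl
  · rw [List.concat_eq_append] at h
    subst h
    unfold nw
    rw [List.flatMap_append, List.flatMap_cons, List.flatMap_nil, List.append_nil]
    have h : ¬ ∃ p ∈ T, X (l ++ [a]) κ p = a := by
      rintro ⟨p, hp, hx⟩
      have s := F.sp hp
      have d := s.d1
      have e := s.d2
      rw [hx] at d e
      have hf := hfar p hp
      have e1 : (l ++ [a]).getLastD 0 = a := by simp
      rw [e1] at hf
      unfold D at hf
      rw [Int.abs_eq_natAbs] at d e
      omega
    rw [em_other h]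
    simp

theorem getLastD_congr {l l' : List Pt} (h : l.getLast? = l'.getLast?) :
    l.getLastD 0 = l'.getLastD 0 := by
  rw [List.getLastD_eq_getLast?, List.getLastD_eq_getLast?, h]

/-- points far from the two ends are inner points -/
theorem inn_of {B : List Pt} (hh : B.head? = some 0) {v : Pt} (hv : v ∈ B) (h0 : 1 ≤ D 0 v)
    (h1 : 1 ≤ D (B.getLastD 0) v) : Inn B v := by
  refine interior hv ?_ ?_
  · rw [hh]
    intro h
    have : v = 0 := by simpa using h.symm
    rw [this, D_self] at h0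
    omega
  · intro h
    rw [List.getLastD_eq_getLast?, h, Option.getD_some, D_self] at h1
    omega

theorem Surg_D {B : List Pt} {s x : Pt} {κ : Bool × Pt} {L : List Pt}
    (h : Surg B s κ x L) : D s x ≤ 4 := by
  have d := h.d1
  have e := h.d2
  rw [Int.abs_eq_natAbs] at d e
  unfold D
  omega

/-- the surgeries of one code in one class -/
noncomputable def QE (A : Finset Pt) (e : ℕ) (κ : Bool × Pt) (c : Pt) (B : List Pt) : Finset Pt :=
  (EE A B (e + 1)).filter (fun s => cls s = c ∧ ∃ x L, Surg B s κ x L)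

theorem fam_QE {A : Finset Pt} {e : ℕ} {κ : Bool × Pt} {c : Pt} {B : List Pt} {T : Finset Pt}
    (hT : T ⊆ QE A e κ c B) : Fam B T κ T := by
  have h : ∀ p ∈ T, cls p = c ∧ ∃ x L, Surg B p κ x L := by
    intro p hp
    exact (Finset.mem_filter.1 (hT hp)).2
  refine ⟨fun p hp => (h p hp).2, fun p hp p' hp' hne => ?_, fun p hp => hp, ?_⟩
  · have h1 := (h p hp).1
    have h2 := (h p' hp').1
    rw [← h2] at h1
    unfold cls at h1
    rw [Prod.mk.injEq] at h1
    by_contra hcon
    push Not at hcon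
    apply hne
    obtain ⟨ha, hb⟩ := hcon
    rw [abs_lt] at ha hb
    refine Prod.ext ?_ ?_ <;> omega
  · intro v hv hvT
    obtain ⟨x, L, hs⟩ := (h v hvT).2
    exact absurd hv hs.np

/-- **One level.** -/
theorem next {A : Finset Pt} {e n : ℕ} {κ : Bool × Pt} {c : Pt} {B : List Pt} {T : Finset Pt}
    (hB : B ∈ LS n) (hav : ∀ v ∈ B, v ∈ A → v = 0) (hT : T ⊆ QE A e κ c B) :
    nw B κ T ∈ LS (n + (if κ.1 = true then 2 else 0) * T.card) ∧
    (∀ v ∈ nw B κ T, v ∈ A → v = 0) ∧
    (∀ s ∈ T, ∃ s' ∈ EE A (nw B κ T) e, adj s s') ∧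
    (nw B κ T).filterMap (gd κ T) = B := by
  obtain ⟨b1, b2, b3, b4⟩ := hB
  have F := fam_QE hT
  have hE : ∀ s ∈ T, IsE A B (e + 1) s := fun s hs =>
    mem_EE.1 (Finset.mem_filter.1 (hT hs)).1
  have hlast : (nw B κ T).getLast? = B.getLast? :=
    fam_last F (fun p hp => by have := (hE p hp).f1; omega)
  have hlast' : (nw B κ T).getLastD 0 = B.getLastD 0 := getLastD_congr hlast
  have hhead : (nw B κ T).head? = some 0 := by
    refine F.head b2 (fun p hp => ?_)
    have := (hE p hp).f0
    unfold D at this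
    rw [Int.abs_eq_natAbs, Int.abs_eq_natAbs]
    simp only [Prod.fst_zero, Prod.snd_zero, sub_zero] at this
    omega
  have hchain := F.chain b3 b4
  have hnodup := F.nodup b4
  -- the inserted points are next to `B`
  have hnear : ∀ s ∈ T, ∀ v, (v = s ∨ (κ.1 = true ∧ v = s + κ.2)) → ∃ b ∈ B, D v b = 1 := by
    intro s hs v hv
    have h1 := F.sp hs
    have h2 := Surg_D h1
    have h3 : Inn B (X B κ s) := by
      refine inn_of b2 h1.mx ?_ ?_
      · have := (hE s hs).f0
        have := D_tri 0 (X B κ s) s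
        rw [D_comm s] at h2
        omega
      · have := (hE s hs).f1
        have := D_tri (B.getLastD 0) (X B κ s) s
        rw [D_comm s] at h2
        omega
    obtain ⟨g1, g2⟩ := surg_near h1 h3
    rcases hv with hv | ⟨h0, hv⟩
    · rw [hv]; exact g1
    · rw [hv]; exact g2 h0
  -- no inserted point is in `A`
  have hnA : ∀ s ∈ T, ∀ v, (v = s ∨ (κ.1 = true ∧ v = s + κ.2)) → v ∉ A := by
    intro s hs v hv hvA
    obtain ⟨b, hb, hd⟩ := hnear s hs v hv
    have h1 : D s v ≤ 1 := by
      rcases hv with hv | ⟨h0, hv⟩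
      · rw [hv, D_self]; omega
      · rw [hv]
        have := adj_iff_D.1 (adj_add (p := s) ((F.sp hs).un h0))
        omega
    have := (hE s hs).mn v hvA (by omega) b hb
    omega
  have hav' : ∀ v ∈ nw B κ T, v ∈ A → v = 0 := by
    intro v hv hvA
    rcases F.mem_nw hv with h | ⟨s, hs, h⟩
    · exact hav v h hvA
    · exact absurd hvA (hnA s hs v h)
  refine ⟨⟨?_, hhead, hchain, hnodup⟩, hav', ?_, F.decode⟩
  · rw [F.length b4, b1]
    ring
  · intro s hs
    have hEs := hE s hs
    obtain ⟨p, ⟨hpA, p1, hp1, p2, hp2, h12, ha1, ha2⟩, hdp⟩ := hEs.tgt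
    have hsB' : s ∈ nw B κ T := F.p_mem_nw hs
    have hf0 := hEs.f0
    have hf1 := hEs.f1
    rw [← hlast'] at hf1
    rcases Nat.eq_zero_or_pos e with he | he
    · -- contact
      subst he
      have hadj : adj p s := by rw [adj_iff_D, D_comm]; omega
      have t0 := D_tri 0 p s
      have t1 := D_tri ((nw B κ T).getLastD 0) p s
      rw [adj_iff_D] at hadj
      refine ⟨p, ?_, adj_comm (adj_iff_D.2 hadj)⟩
      show p ∈ QQ A (nw B κ T)
      unfold QQ
      rw [Finset.mem_filter]
      refine ⟨hpA, ?_, ?_⟩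
      · unfold far
        rw [Int.abs_eq_natAbs, Int.abs_eq_natAbs]
        unfold D at t0 hf0 hadj
        simp only [Prod.fst_zero, Prod.snd_zero, sub_zero] at t0 hf0
        omega
      · refine loc (A := {x | x ∈ A}) hchain hnodup hpA hp1 hp2 h12 ha1 ha2 hsB'
          (adj_iff_D.2 hadj) (fun u hu hu1 hu2 => ?_)
        have h4 : D p u ≤ 4 := by
          rw [Int.abs_eq_natAbs] at hu1 hu2
          unfold D
          omega
        rw [D_comm] at h4
        have t2 := D_tri 0 u p
        have t3 := D_tri ((nw B κ T).getLastD 0) u p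
        have h5 : Inn (nw B κ T) u := inn_of hhead hu (by omega) (by omega)
        refine ⟨h5, fun huA => ?_⟩
        have := hav' u hu huA
        rw [this] at h4
        omega
    · -- one step closer
      have hmin : ∀ a ∈ A, D s a ≤ e + 3 → ∀ b ∈ nw B κ T, e + 1 ≤ D a b := by
        intro a ha hsa b hb
        rcases F.mem_nw hb with h | ⟨s', hs', h⟩
        · have := hEs.mn a ha (by omega) b h
          omega
        · obtain ⟨b0, hb0, hd0⟩ := hnear s' hs' b h
          have := hEs.mn a ha (by omega) b0 hb0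
          have := D_tri a b b0
          omega
      obtain ⟨s', h1, h2, h3⟩ := step (A := {x | x ∈ A}) hchain hnodup he hsB' hpA hdp hp1 hp2 h12
        ha1 ha2 hmin (fun v hv hv2 => by
          have t2 := D_tri 0 v s
          have t3 := D_tri ((nw B κ T).getLastD 0) v s
          rw [D_comm] at hv2
          exact inn_of hhead hv (by omega) (by omega))
      refine ⟨s', ?_, h1⟩
      obtain ⟨e', rfl⟩ : ∃ e', e = e' + 1 := ⟨e - 1, by omega⟩
      rw [mem_EE]
      have h1' := adj_iff_D.1 h1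
      refine ⟨⟨p, ⟨hpA, p1, hp1, p2, hp2, h12, ha1, ha2⟩, h2⟩, ?_, ?_, ?_, h3⟩
      · intro a ha hsa b hb
        refine hmin a ha ?_ b hb
        have := D_tri s s' a
        omega
      · have := D_tri 0 s' s
        rw [D_comm s' s] at this
        omega
      · have := D_tri ((nw B κ T).getLastD 0) s' s
        rw [D_comm s' s] at this
        omega

end Run7.h738.ND
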