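import Pool.Agent.Run7.h738.ND.Pairs

/-! # Walks near an obstacle which they avoid -/

set_option autoImplicit false

namespace Run7.h738.ND

open scoped Classical
open Pool.Agent.W840.CT

/-- **Descent to a place for a surgery, for an arbitrary obstacle.** -/
theorem descentG {m : ℕ} {A : Finset Pt} {B : List Pt} (hB : B ∈ LS m)
    (hd : ∀ v ∈ B, v ∈ A → v = 0) (e : ℕ) : ∀ a ∈ A, ∀ b ∈ B, D b a = e + 1 →
    F e ≤ D 0 b → F e ≤ D (B.getLastD 0) b → (∀ p ∈ A, D b p ≤ F e → Two A p) →
    ∃ e' ≤ e, ∃ s ∈ EE A B e', D b s ≤ F e := by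
  induction e using Nat.strong_induction_on with
  | _ e ih =>
  intro a ha b hb hab h0 hlB hT
  obtain ⟨b1, b2, b3, b4⟩ := hB
  have hF : e + 14 ≤ F e := by
    unfold F
    nlinarith
  have t0 := D_tri 0 a b
  have tB := D_tri (B.getLastD 0) a b
  rw [D_comm a b, hab] at t0 tB
  have hTwo : Two A a := hT a ha (by omega)
  obtain ⟨haA, p1, hp1, p2, hp2, h12, ha1, ha2⟩ := id hTwo
  rcases Nat.eq_zero_or_pos e with he | he
  · -- contact
    subst he
    have hadj : adj a b := by rw [adj_iff_D, D_comm]; omega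
    refine ⟨0, le_rfl, a, ?_, by omega⟩
    show a ∈ QQ A B
    unfold QQ
    rw [Finset.mem_filter]
    refine ⟨haA, ?_, ?_⟩
    · unfold far
      rw [Int.abs_eq_natAbs, Int.abs_eq_natAbs]
      unfold D at t0 h0
      simp only [Prod.fst_zero, Prod.snd_zero, sub_zero] at t0 h0
      omega
    · refine loc (A := {x | x ∈ A}) b3 b4 haA hp1 hp2 h12 ha1 ha2 hb hadj
        (fun u hu hu1 hu2 => ?_)
      have h4 : D a u ≤ 4 := by
        rw [Int.abs_eq_natAbs] at hu1 hu2
        unfold D
        omega
      rw [D_comm] at h4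
      have t2 := D_tri 0 u a
      have t3 := D_tri (B.getLastD 0) u a
      have h5 : Inn B u := inn_of b2 hu (by omega) (by omega)
      refine ⟨h5, fun huA => ?_⟩
      have := hd u hu huA
      rw [this] at h4
      omega
  · by_cases hmin : ∀ a' ∈ A, D b a' ≤ e + 3 → ∀ b' ∈ B, e + 1 ≤ D a' b'
    · obtain ⟨s, h1, h2, h3⟩ := step (A := {x | x ∈ A}) b3 b4 he hb ha hab hp1 hp2 h12 ha1 ha2
        hmin (fun v hv hv2 => by
          have t2 := D_tri 0 v b
          have t3 := D_tri (B.getLastD 0) v b
          rw [D_comm] at hv2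
          exact inn_of b2 hv (by omega) (by omega))
      have h1' := adj_iff_D.1 h1
      refine ⟨e, le_rfl, s, ?_, by omega⟩
      obtain ⟨e', rfl⟩ : ∃ e', e = e' + 1 := ⟨e - 1, by omega⟩
      rw [mem_EE]
      refine ⟨⟨a, hTwo, h2⟩, ?_, ?_, ?_, h3⟩
      · intro a' ha' hsa b' hb'
        refine hmin a' ha' ?_ b' hb'
        have := D_tri b s a'
        omega
      · have := D_tri 0 s b
        rw [D_comm s b] at this
        omega
      · have := D_tri (B.getLastD 0) s b
        rw [D_comm s b] at this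
        omega
    · push Not at hmin
      obtain ⟨a', ha', hba', b', hb', hab'⟩ := hmin
      have t1 := D_tri b a' b'
      have t2 := D_tri 0 b' b
      have t4 := D_tri (B.getLastD 0) b' b
      have hne : D a' b' ≠ 0 := by
        intro h
        have h5 := D_eq_zero h
        have h6 := hd b' hb' (h5 ▸ ha')
        rw [h5.trans h6, D_comm b 0] at hba'
        omega
      obtain ⟨e', he'⟩ : ∃ e', D a' b' = e' + 1 := ⟨D a' b' - 1, by omega⟩
      have hlt : e' < e := by omega
      have hFm := F_mono hlt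
      rw [D_comm b' b] at t2 t4
      obtain ⟨e'', h1, s, hs, h2⟩ := ih e' hlt a' ha' b' hb' (by rw [D_comm]; exact he')
        (by omega) (by omega) (fun p hp hbp => hT p hp (by
          have := D_tri b b' p
          omega))
      refine ⟨e'', by omega, s, hs, ?_⟩
      have := D_tri b b' s
      omega

/-- points of `B` at distance at most `w` from `A` -/
noncomputable def NW (w : ℕ) (A B : Finset Pt) : ℕ := (B.filter (fun b => ∃ a ∈ A, D b a ≤ w)).card

/-- up to the distance `R` every point of `A` has two neighbours in `A` -/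
def Thick (A : Finset Pt) (R : ℕ) : Prop := ∀ p ∈ A, D 0 p ≤ R → Two A p

theorem D_LS {m : ℕ} {B : List Pt} (hB : B ∈ LS m) {b : Pt} (hb : b ∈ B) : D 0 b ≤ m := by
  obtain ⟨b1, b2, b3, b4⟩ := hB
  have h : ∀ i (hi : i < B.length), D 0 B[i] ≤ i := by
    intro i
    induction i with
    | zero =>
      intro hi
      have h1 : B[0] = 0 := by
        have h2 : B.head? = some B[0] := by
          rw [List.head?_eq_getElem?, List.getElem?_eq_getElem hi]
        rw [h2] at b2
        simpa using b2
      rw [h1, D_self]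
    | succ i ih =>
      intro hi
      have h1 := List.isChain_iff_getElem.1 b3 i hi
      have h2 := ih (by omega)
      have h3 := D_tri 0 B[i] B[i + 1]
      rw [adj_iff_D.1 h1] at h3
      omega
  obtain ⟨i, hi, rfl⟩ := List.mem_iff_getElem.1 hb
  have := h i hi
  omega

/-- the polynomial factor -/
def G2 (w : ℕ) : ℕ := (2 * F w + 1) ^ 2

theorem NW_le {m : ℕ} {A : Finset Pt} {B : List Pt} (hB : B ∈ LS m)
    (hd : ∀ v ∈ B, v ∈ A → v = 0) (w : ℕ) (hT : Thick A (m + F w)) :
    NW w A B.toFinset ≤ G2 w * (2 + ∑ e ∈ Finset.range w, (EE A B e).card) := by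
  set Z : Finset Pt := {0, B.getLastD 0} ∪
    (Finset.range w).biUnion (fun e => EE A B e) with hZ
  have hZc : Z.card ≤ 2 + ∑ e ∈ Finset.range w, (EE A B e).card := by
    refine (Finset.card_union_le _ _).trans (add_le_add Finset.card_le_two ?_)
    exact Finset.card_biUnion_le
  have hsub : B.toFinset.filter (fun b => ∃ a ∈ A, D b a ≤ w) ⊆ Z.biUnion (Bx (F w)) := by
    intro b hq
    rw [Finset.mem_filter, List.mem_toFinset] at hq
    obtain ⟨hb, a, ha, hab⟩ := hq
    rw [Finset.mem_biUnion]
    by_cases hne : D b a = 0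
    · have h5 := D_eq_zero hne
      have h6 := hd b hb (h5 ▸ ha)
      exact ⟨0, by simp [hZ], mem_Bx (by rw [h6, D_self]; omega)⟩
    obtain ⟨e, he⟩ : ∃ e, D b a = e + 1 := ⟨D b a - 1, by omega⟩
    have hew : e < w := by omega
    have hFe := F_le hew.le
    by_cases h0 : F e ≤ D 0 b
    swap
    · exact ⟨0, by simp [hZ], mem_Bx (by omega)⟩
    by_cases h2 : F e ≤ D (B.getLastD 0) b
    swap
    · exact ⟨B.getLastD 0, by simp [hZ], mem_Bx (by omega)⟩
    obtain ⟨e', he', s, hs, hbs⟩ := descentG hB hd e a ha b hb he h0 h2 (fun p hp hbp =>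
      hT p hp (by
        have h3 := D_tri 0 b p
        have h4 := D_LS hB hb
        omega))
    refine ⟨s, ?_, mem_Bx (by rw [D_comm]; omega)⟩
    rw [hZ, Finset.mem_union]
    right
    rw [Finset.mem_biUnion]
    exact ⟨e', Finset.mem_range.2 (by omega), hs⟩
  have h1 := Finset.card_le_card hsub
  have h3 : (Z.biUnion (Bx (F w))).card ≤ Z.card * (2 * F w + 1) ^ 2 := by
    refine Finset.card_biUnion_le.trans ?_
    rw [← smul_eq_mul, ← Finset.sum_const]
    exact Finset.sum_le_sum (fun z _ => (Bx_card _ _).le)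
  unfold NW
  calc _ ≤ Z.card * (2 * F w + 1) ^ 2 := h1.trans h3
    _ = G2 w * Z.card := by unfold G2; ring
    _ ≤ _ := Nat.mul_le_mul_left _ hZc

/-- **Few walks avoid an obstacle and are often close to it.** -/
theorem NW_tail (w m r : ℕ) (hw : 1 ≤ w) {A : Finset Pt} (hT : Thick A (m + F w)) :
    4 ^ r * ((Av A m).filter (fun B =>
      G2 w * (∑ e ∈ Finset.range w, Kc e) * r + 2 * G2 w ≤ NW w A B.toFinset)).card ≤
      Pf w * (LS m).ncard := by
  have hsub : (Av A m).filter (fun B =>
      G2 w * (∑ e ∈ Finset.range w, Kc e) * r + 2 * G2 w ≤ NW w A B.toFinset) ⊆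
      (Finset.range w).biUnion (fun e =>
        (Av A m).filter (fun B => Kc e * r ≤ (EE A B e).card)) := by
    intro B hB
    rw [Finset.mem_filter] at hB
    obtain ⟨h1, h4⟩ := hB
    have h1' := mem_Av.1 h1
    have h5 := NW_le h1'.1 h1'.2 w hT
    have hG : 0 < G2 w := by unfold G2; positivity
    have h6 : G2 w * (2 + r * ∑ e ∈ Finset.range w, Kc e) ≤
        G2 w * (2 + ∑ e ∈ Finset.range w, (EE A B e).card) := by
      refine le_trans (le_of_eq ?_) (h4.trans h5)
      ring
    have h7 := Nat.le_of_mul_le_mul_left h6 hG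
    have h8 : ∑ e ∈ Finset.range w, Kc e * r ≤
        ∑ e ∈ Finset.range w, (EE A B e).card := by
      rw [← Finset.sum_mul, mul_comm]
      omega
    obtain ⟨e, he, h9⟩ := Finset.exists_le_of_sum_le ⟨0, Finset.mem_range.2 (by omega)⟩ h8
    rw [Finset.mem_biUnion]
    exact ⟨e, he, Finset.mem_filter.2 ⟨h1, h9⟩⟩
  have h2 : ∀ e, 4 ^ r * ((Av A m).filter (fun B => Kc e * r ≤ (EE A B e).card)).card ≤
      Cc e * (LS m).ncard := by
    intro e
    have := tailE A e r m
    exact_mod_cast this
  calc 4 ^ r * ((Av A m).filter (fun B =>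
        G2 w * (∑ e ∈ Finset.range w, Kc e) * r + 2 * G2 w ≤ NW w A B.toFinset)).card
      ≤ 4 ^ r * ∑ e ∈ Finset.range w,
          ((Av A m).filter (fun B => Kc e * r ≤ (EE A B e).card)).card :=
        Nat.mul_le_mul_left _ ((Finset.card_le_card hsub).trans Finset.card_biUnion_le)
    _ = ∑ e ∈ Finset.range w, 4 ^ r *
          ((Av A m).filter (fun B => Kc e * r ≤ (EE A B e).card)).card := Finset.mul_sum _ _ _
    _ ≤ ∑ e ∈ Finset.range w, Cc e * (LS m).ncard := Finset.sum_le_sum (fun e _ => h2 e)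
    _ = Pf w * (LS m).ncard := by
        rw [← Finset.sum_mul]
        rfl

/-- from the tail to the mean on a set which may be small -/
theorem mean_small {α : Type*} (S : Finset α) (X : α → ℕ) {a b C M : ℕ} (ha : 1 ≤ a)
    (hC : 1 ≤ C) (hSM : S.card ≤ M)
    (h : ∀ r : ℕ, 4 ^ r * (S.filter (fun s => a * r + b ≤ X s)).card ≤ C * M) :
    (∑ s ∈ S, (X s : ℝ)) ≤ (S.card : ℝ) *
      (3 * ((a : ℝ) + b) * (1 + Real.log C) * (1 + Real.log ((M : ℝ) / (S.card : ℝ)))) := by
  rcases Nat.eq_zero_or_pos S.card with h0 | hq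
  · rw [Finset.card_eq_zero] at h0
    subst h0
    simp
  have hq' : (0 : ℝ) < S.card := by exact_mod_cast hq
  have hM : (0 : ℝ) < M := by
    have : 0 < M := by omega
    exact_mod_cast this
  have hC' : (1 : ℝ) ≤ C := by exact_mod_cast hC
  set q : ℝ := (S.card : ℝ) with hqd
  set J := S.sup X + 1 with hJ
  set L := Real.log (C * M / q) with hL
  have hMq : 1 ≤ M / q := by
    rw [le_div_iff₀ hq', one_mul, hqd]
    exact_mod_cast hSM
  have hCMq : 1 ≤ C * M / q := by
    rw [mul_div_assoc]
    nlinarith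
  have hL0 : 0 ≤ L := Real.log_nonneg hCMq
  set R := ⌈L⌉₊ with hR
  -- pointwise
  have hpt : ∀ s ∈ S, (X s : ℝ) ≤ b + a * ∑ r ∈ Finset.range J,
      (if a * r + b ≤ X s then (1 : ℝ) else 0) := by
    intro s hs
    have hXJ : X s < J := by
      have := Finset.le_sup (f := X) hs
      omega
    rw [← Finset.sum_filter, Finset.sum_const, nsmul_eq_mul, mul_one]
    rcases Nat.lt_or_ge (X s) b with h1 | h1
    · have h2 : (X s : ℝ) ≤ b := by exact_mod_cast h1.le
      have h3 : (0 : ℝ) ≤ a * ((Finset.range J).filter (fun r => a * r + b ≤ X s)).card := by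
        positivity
      linarith
    · have h2 : Finset.range ((X s - b) / a + 1) ⊆
          (Finset.range J).filter (fun r => a * r + b ≤ X s) := by
        intro r hr
        rw [Finset.mem_range] at hr
        rw [Finset.mem_filter, Finset.mem_range]
        have h3 : a * r ≤ X s - b := by
          refine le_trans (Nat.mul_le_mul_left a (Nat.lt_succ_iff.1 hr)) (Nat.mul_div_le _ _)
        have h4 : 1 * r ≤ a * r := Nat.mul_le_mul_right r ha
        omega
      have h3 := Finset.card_le_card h2
      rw [Finset.card_range] at h3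
      have h4 := Nat.lt_mul_div_succ (X s - b) (show 0 < a by omega)
      have h5 : X s ≤ b + a * ((Finset.range J).filter (fun r => a * r + b ≤ X s)).card := by
        have h6 := Nat.mul_le_mul_left a h3
        omega
      exact_mod_cast h5
  -- the sum over the levels
  have hlev : ∑ r ∈ Finset.range J, ((S.filter (fun s => a * r + b ≤ X s)).card : ℝ) ≤
      q * (R + 4 / 3) := by
    have h1 : ∀ r : ℕ, ((S.filter (fun s => a * r + b ≤ X s)).card : ℝ) ≤ q := by
      intro r
      rw [hqd]
      exact_mod_cast Finset.card_filter_le _ _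
    have h2 : ∀ i : ℕ, ((S.filter (fun s => a * (R + i) + b ≤ X s)).card : ℝ) ≤
        q * (1 / 4) ^ i := by
      intro i
      have h3 : (4 : ℝ) ^ (R + i) * ((S.filter (fun s => a * (R + i) + b ≤ X s)).card : ℝ) ≤
          C * M := by exact_mod_cast h (R + i)
      have h4 : C * M ≤ q * 4 ^ R := by
        have h5 : C * M / q = Real.exp L := (Real.exp_log (by linarith)).symm
        have h6 : Real.exp L ≤ 4 ^ R := by
          calc Real.exp L ≤ Real.exp R := Real.exp_le_exp.2 (Nat.le_ceil _)
            _ = Real.exp 1 ^ R := by rw [← Real.exp_nat_mul, mul_one]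
            _ ≤ 4 ^ R := by
                refine pow_le_pow_left₀ (Real.exp_pos _).le ?_ R
                have := Real.exp_one_lt_d9
                linarith
        rw [← h5, div_le_iff₀ hq'] at h6
        linarith
      have h5 : (0 : ℝ) < 4 ^ (R + i) := by positivity
      refine le_of_mul_le_mul_left ?_ h5
      calc (4 : ℝ) ^ (R + i) * ((S.filter (fun s => a * (R + i) + b ≤ X s)).card : ℝ)
          ≤ q * 4 ^ R := h3.trans h4
        _ = 4 ^ (R + i) * (q * (1 / 4) ^ i) := by
            rw [pow_add]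
            have : (4 : ℝ) ^ i * (1 / 4) ^ i = 1 := by rw [← mul_pow]; norm_num
            linear_combination (-(q * 4 ^ R)) * this
    calc ∑ r ∈ Finset.range J, ((S.filter (fun s => a * r + b ≤ X s)).card : ℝ)
        ≤ ∑ r ∈ Finset.range (R + J), ((S.filter (fun s => a * r + b ≤ X s)).card : ℝ) := by
          refine Finset.sum_le_sum_of_subset_of_nonneg ?_ (fun _ _ _ => Nat.cast_nonneg _)
          intro r hr
          rw [Finset.mem_range] at hr ⊢
          omega
      _ = ∑ r ∈ Finset.range R, ((S.filter (fun s => a * r + b ≤ X s)).card : ℝ) +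
          ∑ i ∈ Finset.range J, ((S.filter (fun s => a * (R + i) + b ≤ X s)).card : ℝ) := by
          rw [Finset.sum_range_add]
      _ ≤ ∑ r ∈ Finset.range R, q + ∑ i ∈ Finset.range J, q * (1 / 4) ^ i :=
          add_le_add (Finset.sum_le_sum (fun r _ => h1 r)) (Finset.sum_le_sum (fun i _ => h2 i))
      _ ≤ R * q + q * (4 / 3) := by
          rw [Finset.sum_const, Finset.card_range, nsmul_eq_mul, ← Finset.mul_sum]
          have h3 : ∑ i ∈ Finset.range J, (1 / 4 : ℝ) ^ i ≤ 4 / 3 := by
            rw [geom_sum_eq (by norm_num)]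
            have h5 : (0 : ℝ) ≤ (1 / 4) ^ J := by positivity
            have e : ((1 / 4 : ℝ) ^ J - 1) / (1 / 4 - 1) = 4 / 3 - 4 / 3 * (1 / 4) ^ J := by
              field_simp
              ring
            rw [e]
            linarith
          have := mul_le_mul_of_nonneg_left h3 hq'.le
          linarith
      _ = _ := by ring
  have hRL : (R : ℝ) ≤ L + 1 := (Nat.ceil_lt_add_one hL0).le
  have hLe : L = Real.log C + Real.log (M / q) := by
    rw [hL, mul_div_assoc, Real.log_mul (by linarith) (by linarith)]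
  have hl1 : 0 ≤ Real.log C := Real.log_nonneg hC'
  have hl2 : 0 ≤ Real.log (M / q) := Real.log_nonneg hMq
  have ha' : (1 : ℝ) ≤ a := by exact_mod_cast ha
  have hb' : (0 : ℝ) ≤ b := Nat.cast_nonneg b
  calc ∑ s ∈ S, (X s : ℝ)
      ≤ ∑ s ∈ S, (b + a * ∑ r ∈ Finset.range J, (if a * r + b ≤ X s then (1 : ℝ) else 0)) :=
        Finset.sum_le_sum hpt
    _ = b * q + a * ∑ r ∈ Finset.range J, ((S.filter (fun s => a * r + b ≤ X s)).card : ℝ) := by
        rw [Finset.sum_add_distrib, Finset.sum_const, nsmul_eq_mul, ← Finset.mul_sum,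
          Finset.sum_comm, mul_comm (b : ℝ)]
        congr 2
        refine Finset.sum_congr rfl (fun r _ => ?_)
        rw [← Finset.sum_filter, Finset.sum_const, nsmul_eq_mul, mul_one]
    _ ≤ b * q + a * (q * (R + 4 / 3)) := by
        have := mul_le_mul_of_nonneg_left hlev (show (0 : ℝ) ≤ a by linarith)
        linarith
    _ = q * (b + a * (R + 4 / 3)) := by ring
    _ ≤ _ := by
        refine mul_le_mul_of_nonneg_left ?_ hq'.le
        have h5 : (R : ℝ) + 4 / 3 ≤ 3 * ((1 + Real.log C) * (1 + Real.log (M / q))) := by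
          rw [hLe] at hRL
          nlinarith [mul_nonneg hl1 hl2]
        have h6 : (1 : ℝ) ≤ (1 + Real.log C) * (1 + Real.log (M / q)) := by
          nlinarith [mul_nonneg hl1 hl2]
        have h7 := mul_le_mul_of_nonneg_left h5 (show (0 : ℝ) ≤ a by linarith)
        have h8 := mul_le_mul_of_nonneg_left h6 hb'
        nlinarith

end Run7.h738.ND
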